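import Pool.Agent.H15.SM.BDI
import Pool.Agent.H11.UC.A1

set_option autoImplicit false
open Pool.Agent.H75.Perc Metric Set Filter Topology Pool.Agent.H7.UC Pool.Agent.H74.Tri
open Pool.Agent.H93.SM Pool.Agent.H11.UC

/-! MP_2e6055, module SM/BD: basics (distance, charts, the sine of a state). -/

namespace Pool.Agent.H15.SM

lemma norm_ctr_le {f : Fc} {z : ℂ} (hz : z ∈ cell f) : ‖z - ctr f‖ ≤ 2 := by
  rw [mem_cell, ← P_ctr, ← Q_ctr, ← P_sub, ← Q_sub] at hz
  obtain ⟨h1, h2, h3⟩ := hz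
  have h4 : |(z - ctr f).re| ≤ 1 / 2 := by
    have : P (z - ctr f) = 2 * (z - ctr f).re := rfl
    rw [this, abs_mul, abs_two] at h1
    linarith
  have h5 : |(z - ctr f).im| ≤ 3 / 2 := by
    have h6 : Q (z - ctr f) = (z - ctr f).re + √3 * (z - ctr f).im := rfl
    have h7 : |√3 * (z - ctr f).im| ≤ 3 / 2 := by
      have : √3 * (z - ctr f).im = Q (z - ctr f) - (z - ctr f).re := by rw [h6]; ring
      rw [this]
      calc |Q (z - ctr f) - (z - ctr f).re| ≤ |Q (z - ctr f)| + |(z - ctr f).re| := abs_sub _ _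
        _ ≤ 3 / 2 := by linarith
    rw [abs_mul, abs_of_pos s3_pos] at h7
    have h8 : (1:ℝ) ≤ √3 := by
      rw [Real.le_sqrt (by norm_num)] <;> norm_num
    nlinarith [abs_nonneg (z - ctr f).im]
  calc ‖z - ctr f‖ ≤ |(z - ctr f).re| + |(z - ctr f).im| := Complex.norm_le_abs_re_add_abs_im _
    _ ≤ 2 := by linarith

lemma reg_compl_nonempty (U : Finset Fc) : ((reg U)ᶜ).Nonempty := by
  by_contra h
  rw [not_nonempty_iff_eq_empty, compl_empty_iff] at h
  have := isBounded_reg U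
  rw [h] at this
  exact NormedSpace.unbounded_univ ℝ ℂ this

lemma ctr_mem_reg {U : Finset Fc} {z : Fc} (hz : z ∈ U) : ctr z ∈ reg U :=
  ocell_subset_reg hz (ctr_mem z)

lemma dst_nonneg (U : Finset Fc) (z : Fc) : 0 ≤ dst U z := infDist_nonneg

lemma dst_pos {U : Finset Fc} {z : Fc} (hz : z ∈ U) : 0 < dst U z := by
  have h1 : IsClosed (reg U)ᶜ := (isOpen_reg U).isClosed_compl
  rcases lt_or_eq_of_le (dst_nonneg U z) with h | h
  · exact h
  · exfalso
    have h2 : ctr z ∈ closure (reg U)ᶜ :=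
      (mem_closure_iff_infDist_zero (reg_compl_nonempty U)).2 h.symm
    rw [h1.closure_eq] at h2
    exact h2 (ctr_mem_reg hz)

lemma ball_dst (U : Finset Fc) (z : Fc) : ball (ctr z) (dst U z) ⊆ reg U := by
  intro y hy
  by_contra h
  have h1 : dst U z ≤ dist (ctr z) y := infDist_le_dist_of_mem h
  rw [mem_ball, dist_comm] at hy
  linarith

lemma exists_dst (U : Finset Fc) (z : Fc) : ∃ b, b ∉ reg U ∧ ‖b - ctr z‖ = dst U z := by
  obtain ⟨b, hb, hbd⟩ := (isOpen_reg U).isClosed_compl.exists_infDist_eq_dist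
    (reg_compl_nonempty U) (ctr z)
  refine ⟨b, hb, ?_⟩
  unfold dst
  rw [hbd, dist_comm, dist_eq_norm]

lemma reg_mono {U V : Finset Fc} (h : U ⊆ V) : reg U ⊆ reg V := by
  intro z hz
  rw [mem_reg] at hz ⊢
  exact fun g hg => h (hz g hg)

lemma dst_mono {U V : Finset Fc} (h : U ⊆ V) (z : Fc) : dst U z ≤ dst V z := by
  obtain ⟨b, hb, hbd⟩ := exists_dst V z
  rw [← hbd, ← dist_eq_norm, dist_comm]
  exact infDist_le_dist_of_mem (fun h' => hb (reg_mono h h'))

/-- points of the frontier come from the circle -/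
lemma chart_sphere {D : Set ℂ} {φ : ℂ → ℂ} (hD : IsOpen D) (h : DiscChart D φ) {y : ℂ}
    (hy : y ∈ frontier D) : ∃ w, ‖w‖ = 1 ∧ φ w = y := by
  rw [hD.frontier_eq] at hy
  have h1 := hy.1
  rw [← h.imgc] at h1
  obtain ⟨w, hw, rfl⟩ := h1
  refine ⟨w, ?_, rfl⟩
  rw [mem_closedBall_zero_iff] at hw
  rcases lt_or_eq_of_le hw with h2 | h2
  · exfalso
    apply hy.2
    rw [← h.img]
    exact ⟨w, mem_ball_zero_iff.2 h2, rfl⟩
  · exact h2

/-- points of the circle go to the frontier -/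
lemma sphere_frontier {D : Set ℂ} {φ : ℂ → ℂ} (hD : IsOpen D) (h : DiscChart D φ) {w : ℂ}
    (hw : ‖w‖ = 1) : φ w ∈ frontier D := by
  rw [hD.frontier_eq]
  refine ⟨?_, ?_⟩
  · rw [← h.imgc]
    exact ⟨w, mem_closedBall_zero_iff.2 hw.le, rfl⟩
  · intro h1
    rw [← h.img] at h1
    obtain ⟨w', hw', he⟩ := h1
    have h2 := h.inj (ball_subset_closedBall hw') (mem_closedBall_zero_iff.2 hw.le) he
    rw [h2, mem_ball_zero_iff] at hw'
    linarith

/-- a vertex with one face inside is on the frontier -/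
lemma mark_frontier {U : Finset Fc} {n : ℕ} [NeZero n] (M : Marks U n) (j : Fin n) :
    pv (M.u j) ∈ frontier (reg U) := by
  obtain ⟨k, h1, h2, h3, h4⟩ := M.out j
  have hb : isB U (ed (M.u j) (k + 1)) := (M.mem _).2 ⟨j, h4⟩
  rw [frontier_reg]
  simp only [mem_iUnion]
  exact ⟨M.u j, k + 1, hb, left_mem_segment _ _ _⟩

/-- colour property of the two arcs -/
def ColP {U : Finset Fc} (col : Fc → Bool) (M : Marks U 2) : Prop :=
  ∀ e, isB U e → ∀ f, (f = lf e ∨ f = rf e) → f ∉ U → (e ∈ M.C 0 ↔ col f = false)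

lemma ColP.one {U : Finset Fc} {col : Fc → Bool} {M : Marks U 2} (h : ColP col M) {e : Ed}
    (he : isB U e) {f : Fc} (hf : f = lf e ∨ f = rf e) (hfU : f ∉ U) :
    e ∈ M.C 1 ↔ col f = true := by
  have h0 := h e he f hf hfU
  obtain ⟨j, hj⟩ := (M.mem e).1 he
  have hd := M.disj 0 1 (by decide)
  rw [Finset.disjoint_left] at hd
  constructor
  · intro h1
    by_contra h2
    have h3 : col f = false := by simpa using h2
    exact hd (h0.2 h3) h1
  · intro h1
    have h2 : e ∉ M.C 0 := fun h3 => by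
      have := h0.1 h3; rw [h1] at this; cases this
    fin_cases j
    · exact absurd hj h2
    · exact hj

/-- the index of the arc of colour `c` -/
def ix (c : Bool) : Fin 2 := if c then 1 else 0

lemma ColP.ix {U : Finset Fc} {col : Fc → Bool} {M : Marks U 2} (h : ColP col M) (c : Bool) {e : Ed}
    (he : isB U e) {f : Fc} (hf : f = lf e ∨ f = rf e) (hfU : f ∉ U) :
    e ∈ M.C (ix c) ↔ col f = c := by
  cases c
  · exact h e he f hf hfU
  · exact h.one he hf hfU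

/-- **Marks, chart and positions of a state with a tip.** -/
theorem sn_spec (hE : ECT) {U : Finset Fc} {col : Fc → Bool} {z : Fc} (hst : St U col) (hz : z ∈ U)
    (ht : ∃ t, TipE U col t) : ∃ (M : Marks U 2) (φ : ℂ → ℂ) (p q : ℂ), ColP col M ∧
      DiscChart (reg U) φ ∧ φ 0 = ctr z ∧ ‖p‖ = 1 ∧ ‖q‖ = 1 ∧ φ p = pv (M.u 0) ∧
      φ q = pv (M.u 1) ∧ sn U col z = ‖p - q‖ / 2 := by
  rcases hE U col hst with ⟨M, p, q, hp, hq, hpu, hqu, hpun, hqun, hcol⟩ | ⟨hno, -⟩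
  · have hspec := ht.choose_spec
    set t := ht.choose with htd
    obtain ⟨p', q', hp', e1, hq', e2⟩ := hspec
    rw [hpun p' hp', hpu] at e1
    rw [hqun q' hq', hqu] at e2
    have hsn : sn U col z = snv U z (M.u 0) (M.u 1) := by
      unfold sn
      rw [dif_pos ht, ← htd, ← e1, ← e2]
    have hex : ∃ t, PosP U z (M.u 0) (M.u 1) t := by
      obtain ⟨φ, h1, h2⟩ := (a1 U hst.dom).1 (ctr z) (ctr_mem_reg hz)
      obtain ⟨w0, h3, h4⟩ := chart_sphere (isOpen_reg U) h1 (mark_frontier M 0)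
      obtain ⟨w1, h5, h6⟩ := chart_sphere (isOpen_reg U) h1 (mark_frontier M 1)
      exact ⟨(φ, w0, w1), h1, h2, h3, h5, h4, h6⟩
    have hs := hex.choose_spec
    refine ⟨M, hex.choose.1, hex.choose.2.1, hex.choose.2.2, hcol, hs.1, hs.2.1, hs.2.2.1,
      hs.2.2.2.1, hs.2.2.2.2.1, hs.2.2.2.2.2, ?_⟩
    rw [hsn]
    unfold snv
    rw [dif_pos hex]
  · obtain ⟨t, p, q, hp, -⟩ := ht
    exact absurd hp (hno p)

lemma tip_of_sn {U : Finset Fc} {col : Fc → Bool} {z : Fc} (h : sn U col z ≠ 0) :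
    ∃ t, TipE U col t := by
  by_contra h1
  apply h
  unfold sn
  rw [dif_neg h1]

lemma norm_exp_add_one (θ : ℝ) : ‖Complex.exp (θ * Complex.I) + 1‖ ^ 2 = 2 + 2 * Real.cos θ := by
  rw [Complex.sq_norm, Complex.normSq_apply]
  simp only [Complex.add_re, Complex.add_im, Complex.exp_ofReal_mul_I_re,
    Complex.exp_ofReal_mul_I_im, Complex.one_re, Complex.one_im]
  nlinarith [Real.sin_sq_add_cos_sq θ]

/-- the part of the circle away from `p` is connected -/
lemma arc_preconn {p : ℂ} (hp : ‖p‖ = 1) {r : ℝ} (hr : 0 < r) :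
    IsPreconnected {w : ℂ | ‖w‖ = 1 ∧ r ≤ ‖w - p‖} := by
  have hp0 : p ≠ 0 := by rintro rfl; simp at hp
  have key : ∀ θ : ℝ, ‖-p * Complex.exp (θ * Complex.I) - p‖ ^ 2 = 2 + 2 * Real.cos θ := by
    intro θ
    have e : -p * Complex.exp (θ * Complex.I) - p = -p * (Complex.exp (θ * Complex.I) + 1) := by ring
    rw [e, norm_mul, norm_neg, hp, one_mul, norm_exp_add_one]
  have hset : {w : ℂ | ‖w‖ = 1 ∧ r ≤ ‖w - p‖} = (fun θ : ℝ => -p * Complex.exp (θ * Complex.I)) ''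
      {θ : ℝ | |θ| ≤ Real.pi ∧ r ^ 2 ≤ 2 + 2 * Real.cos θ} := by
    ext w
    constructor
    · rintro ⟨h1, h2⟩
      set u : ℂ := -w / p with hu
      have hun : ‖u‖ = 1 := by rw [hu, norm_div, norm_neg, h1, hp, div_one]
      have hexp : Complex.exp (u.arg * Complex.I) = u := by
        have := Complex.norm_mul_exp_arg_mul_I u
        rwa [hun, Complex.ofReal_one, one_mul] at this
      have hw : -p * Complex.exp (u.arg * Complex.I) = w := by
        rw [hexp, hu]; field_simp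
      refine ⟨u.arg, ⟨Complex.abs_arg_le_pi u, ?_⟩, hw⟩
      rw [← key, hw]
      exact pow_le_pow_left₀ hr.le h2 2
    · rintro ⟨θ, ⟨h1, h2⟩, rfl⟩
      refine ⟨?_, ?_⟩
      · rw [norm_mul, norm_neg, hp, one_mul, Complex.norm_exp_ofReal_mul_I]
      · rw [← key] at h2
        exact (sq_le_sq₀ hr.le (norm_nonneg _)).1 h2
  rw [hset]
  apply IsPreconnected.image
  · apply Set.OrdConnected.isPreconnected
    constructor
    rintro a ⟨ha1, ha2⟩ b ⟨hb1, hb2⟩ θ ⟨h1, h2⟩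
    have habs : |θ| ≤ max |a| |b| := by
      rw [abs_le]
      constructor
      · have := neg_abs_le a
        have := le_max_left |a| |b|
        linarith
      · have := le_abs_self b
        have := le_max_right |a| |b|
        linarith
    have hmon : ∀ x : ℝ, |x| ≤ Real.pi → r ^ 2 ≤ 2 + 2 * Real.cos x → |θ| ≤ |x| →
        |θ| ≤ Real.pi ∧ r ^ 2 ≤ 2 + 2 * Real.cos θ := by
      intro x hx1 hx2 hx3
      refine ⟨hx3.trans hx1, hx2.trans ?_⟩
      have := Real.cos_le_cos_of_nonneg_of_le_pi (abs_nonneg θ) hx1 hx3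
      rw [Real.cos_abs, Real.cos_abs] at this
      linarith
    rcases le_total |a| |b| with h | h
    · rw [max_eq_right h] at habs
      exact hmon b hb1 hb2 habs
    · rw [max_eq_left h] at habs
      exact hmon a ha1 ha2 habs
  · fun_prop

/-- a point of the circle at given distance from `p` -/
lemma exists_sphere_pt {p : ℂ} (hp : ‖p‖ = 1) {r : ℝ} (hr : 0 ≤ r) (hr2 : r ≤ 2) :
    ∃ w : ℂ, ‖w‖ = 1 ∧ ‖w - p‖ = r := by
  have h1 : IsPreconnected (sphere (0 : ℂ) 1) := isPreconnected_sphere (by simp) 0 1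
  have h2 : p ∈ sphere (0 : ℂ) 1 := mem_sphere_zero_iff_norm.2 hp
  have h3 : -p ∈ sphere (0 : ℂ) 1 := mem_sphere_zero_iff_norm.2 (by rwa [norm_neg])
  obtain ⟨w, hw, hwr⟩ := h1.intermediate_value h2 h3 (f := fun w : ℂ => ‖w - p‖)
    (by fun_prop) (show r ∈ Icc (‖p - p‖) (‖-p - p‖) by
      rw [sub_self, norm_zero]
      have e : -p - p = -(2 * p) := by ring
      rw [e, norm_neg, norm_mul, hp]
      simpa using ⟨hr, hr2⟩)
  exact ⟨w, mem_sphere_zero_iff_norm.1 hw, hwr⟩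

lemma isClosed_ES (A : Finset Ed) : IsClosed (ES ↑A) := by
  have h : ES (↑A : Set Ed) = ⋃ e ∈ A, segment ℝ (pv (e.1, e.2.1, false)) (pv (nb (e.1, e.2.1, false) e.2.2)) := by
    ext y
    unfold ES
    simp only [mem_iUnion, Finset.mem_coe, exists_prop]
    constructor
    · rintro ⟨v, k, h1, h2⟩
      refine ⟨ed v k, h1, ?_⟩
      have h3 : ed ((ed v k).1, (ed v k).2.1, false) (ed v k).2.2 = ed v k := rfl
      have h4 := (ed_eq_iff v ((ed v k).1, (ed v k).2.1, false) k (ed v k).2.2).1 h3.symm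
      obtain ⟨h5, h6⟩ := h4
      rw [← h5]
      rcases h6 with h6 | h6
      · rw [h6]; exact h2
      · rw [h6, nb_nb, segment_symm]; exact h2
    · rintro ⟨e, h1, h2⟩
      exact ⟨(e.1, e.2.1, false), e.2.2, h1, h2⟩
  rw [h]
  apply isClosed_biUnion_finset
  intro e _
  rw [← convexHull_pair]
  exact (Set.Finite.isCompact_convexHull ℝ (Set.toFinite _)).isClosed

/-- **The short arc**: the edges of one colour lie near the tip in the chart. -/
theorem short_arc (hEI : EI) {U : Finset Fc} (hU : IsDom U) (M : Marks U 2) {φ : ℂ → ℂ}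
    (hφ : DiscChart (reg U) φ) {p q : ℂ} (hp : ‖p‖ = 1) (hq : ‖q‖ = 1) (hpu : φ p = pv (M.u 0))
    (hqu : φ q = pv (M.u 1)) {r : ℝ} (hr : ‖p - q‖ < r) :
    ∃ c : Bool, ∀ w, ‖w‖ = 1 → φ w ∈ ES ↑(M.C (ix c)) → ‖w - p‖ < r := by
  have hr0 : 0 < r := lt_of_le_of_lt (norm_nonneg _) hr
  set L : Set ℂ := {w : ℂ | ‖w‖ = 1 ∧ r ≤ ‖w - p‖} with hL
  have hLc : IsPreconnected L := arc_preconn hp hr0
  have hLs : L ⊆ closedBall 0 1 := fun w hw => mem_closedBall_zero_iff.2 hw.1.le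
  have hφL : IsPreconnected (φ '' L) := hLc.image φ (hφ.cont.mono hLs)
  have hcov : φ '' L ⊆ ES ↑(M.C 0) ∪ ES ↑(M.C 1) := by
    rintro _ ⟨w, hw, rfl⟩
    have h1 := sphere_frontier (isOpen_reg U) hφ hw.1
    rw [frontier_reg] at h1
    simp only [mem_iUnion] at h1
    obtain ⟨v, k, hb, hs⟩ := h1
    obtain ⟨j, hj⟩ := (M.mem _).1 hb
    have : φ w ∈ ES ↑(M.C j) := by
      unfold ES
      simp only [mem_iUnion]
      exact ⟨v, k, hj, hs⟩
    fin_cases j
    · exact Or.inl this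
    · exact Or.inr this
  have hdis : ∀ w ∈ L, ¬ (φ w ∈ ES ↑(M.C 0) ∧ φ w ∈ ES ↑(M.C 1)) := by
    rintro w hw ⟨h1, h2⟩
    have h3 := hEI U M hU ⟨h1, h2⟩
    rcases h3 with h3 | h3
    · rw [← hpu] at h3
      have := hφ.inj (hLs hw) (mem_closedBall_zero_iff.2 hp.le) h3
      have h4 := hw.2
      rw [this, sub_self, norm_zero] at h4
      linarith
    · rw [mem_singleton_iff, ← hqu] at h3
      have := hφ.inj (hLs hw) (mem_closedBall_zero_iff.2 hq.le) h3
      have h4 := hw.2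
      rw [this, norm_sub_rev] at h4
      linarith
  -- one alternative holds for all of `L`
  have halt : (∀ w ∈ L, φ w ∉ ES ↑(M.C 0)) ∨ (∀ w ∈ L, φ w ∉ ES ↑(M.C 1)) := by
    by_contra hcon
    push Not at hcon
    obtain ⟨⟨w0, hw0, h0⟩, ⟨w1, hw1, h1⟩⟩ := hcon
    have := isPreconnected_closed_iff.1 hφL _ _ (isClosed_ES (M.C 0)) (isClosed_ES (M.C 1)) hcov
      ⟨_, ⟨w0, hw0, rfl⟩, h0⟩ ⟨_, ⟨w1, hw1, rfl⟩, h1⟩
    obtain ⟨_, ⟨w, hw, rfl⟩, h2, h3⟩ := this
    exact hdis w hw ⟨h2, h3⟩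
  rcases halt with h | h
  · refine ⟨false, fun w hw1 hw2 => ?_⟩
    by_contra h3
    exact h w ⟨hw1, not_lt.1 h3⟩ hw2
  · refine ⟨true, fun w hw1 hw2 => ?_⟩
    by_contra h3
    exact h w ⟨hw1, not_lt.1 h3⟩ hw2

end Pool.Agent.H15.SM
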