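import Pool.Agent.H15.SM.BDI
import Pool.Agent.H93.SM.Ev
import Pool.Agent.H21.SM.Cr

set_option autoImplicit false
open Pool.Agent.H75.Perc Metric Set Filter Topology Pool.Agent.H7.UC Pool.Agent.H74.Tri
open Pool.Agent.H93.SM

/-! MP_2e6055, module SM/BD: PB (probability of an arm of revealed faces). -/

namespace Pool.Agent.H15.SM

/-- one step for an increasing event -/
lemma Pr_step {U U' : Finset Fc} {s : Fc} (hs : s ∈ U) (hU' : U' ⊆ U \ {s}) {F : Finset Fc → Prop}
    (hF : Inc F) : (Pr U' (fun ω => F (insert s ω)) + Pr U' F) / 2 ≤ Pr U F := by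
  have h0 : s ∉ U' := fun h => by simpa using hU' h
  have h1 := Pool.Agent.H21.SM.Pr_half (U := U) (U' := U') (h := s) hs
    (hU'.trans Finset.sdiff_subset) h0
    (fun ω => (s ∈ ω ∧ F (insert s (ω ∩ U'))) ∨ (s ∉ ω ∧ F (ω ∩ U')))
    (fun ω => F (insert s ω)) F
    (fun ω _ h => by simp [h]) (fun ω _ h => by simp [h])
  rw [← h1]
  apply Pr_mono
  rintro ω _ (⟨h2, h3⟩ | ⟨h2, h3⟩)
  · refine hF _ _ ?_ h3
    intro a ha
    rcases Finset.mem_insert.1 ha with h | h
    · rw [h]; exact h2
    · exact (Finset.mem_inter.1 h).1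
  · exact hF _ _ Finset.inter_subset_left h3

/-- the invariants are preserved by a step -/
lemma inv_step (hE : ECT) (hS : ECS) {U0 : Finset Fc} {col0 : Fc → Bool} {z : Fc} {c : Bool}
    {U : Finset Fc} {col : Fc → Bool} {V : Finset Fc} (hI : Inv U0 col0 z c U col V) {s : Fc}
    (hT : tipF U col = some s) (hs : s ≠ z) (b : Bool) :
    Inv U0 col0 z c (comp (U \ {s}) z) (Function.update col s b) (insert s V) := by
  obtain ⟨p, hp, rfl⟩ := tipF_spec hT
  obtain ⟨q, hq⟩ : ∃ q, IsExit U col q := by
    rcases hE U col hI.st with ⟨M, p', q', hp', hq', -⟩ | ⟨hno, -⟩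
    · exact ⟨q', hq'⟩
    · exact absurd hp (hno p)
  have hst := (hS U col z p q hI.st hI.mem hp hq hs).1 b
  have hsU : ph p ∈ U := hp.1
  have hsub : comp (U \ {ph p}) z ⊆ U := (comp_sub _ _).trans Finset.sdiff_subset
  have hzU : z ∈ U \ {ph p} := Finset.mem_sdiff.2 ⟨hI.mem, by simpa using hs.symm⟩
  have hVU : ∀ f ∈ V, f ≠ ph p := fun f hf h => (hI.disj f hf).2 (h ▸ hsU)
  have hscomp : ph p ∉ comp (U \ {ph p}) z := fun h => by simpa using comp_sub _ _ h
  have hup : ∀ f, f ≠ ph p → Function.update col (ph p) b f = col f := fun f hf =>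
    Function.update_of_ne hf _ _
  have hups : Function.update col (ph p) b (ph p) = b := Function.update_self _ _ _
  -- a neighbour of the tip face of given colour, off `U`
  have hnb : ∀ x : Bool, ∃ g, adjF (ph p) g ∧ col g = x ∧ g ∉ U := by
    intro x
    cases x
    · exact ⟨pr p, adj_hr p, hp.2.2.2.2, hp.2.2.1⟩
    · exact ⟨pl p, adj_hl p, hp.2.2.2.1, hp.2.1⟩
  have hnear : ∀ g, adjF (ph p) g → g ∉ U → g ∈ U0 → g ∈ V := fun g h1 h2 h3 =>
    hI.near g h3 h2 (ph p) hsU (adjF_symm h1)
  have hmonoJ : ∀ {f g : Fc}, Jn {a | a ∈ V ∧ col a = c} f g →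
      Jn {a | a ∈ insert (ph p) V ∧ Function.update col (ph p) b a = c} f g := by
    intro f g h
    refine h.mono ?_
    rintro a ⟨h1, h2⟩
    exact ⟨Finset.mem_insert_of_mem h1, by rw [hup a (hVU a h1)]; exact h2⟩
  refine ⟨hst, hsub.trans hI.sub, mem_comp_self hzU, ?_, ?_, ?_, ?_, ?_⟩
  · intro f hf
    rcases Finset.mem_insert.1 hf with h | h
    · rw [h]; exact ⟨hI.sub hsU, hscomp⟩
    · exact ⟨(hI.disj f h).1, fun h1 => (hI.disj f h).2 (hsub h1)⟩
  · intro f hf
    rw [hup f (fun h => hf (h ▸ hI.sub hsU))]
    exact hI.out f hf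
  · intro f hf hfc g hg hfg
    by_cases hfU : f ∈ U
    · by_cases hfs : f = ph p
      · rw [hfs]; exact Finset.mem_insert_self _ _
      · exfalso
        exact hfc (comp_adj hg (Finset.mem_sdiff.2 ⟨hfU, by simpa using hfs⟩) (adjF_symm hfg))
    · exact Finset.mem_insert_of_mem (hI.near f hf hfU g (hsub hg) hfg)
  · intro f hf
    rcases Finset.mem_insert.1 hf with h | h
    · obtain ⟨g, h1, h2, h3⟩ := hnb c
      refine ⟨g, by rw [h]; exact h1, ?_, ?_⟩
      · rw [hup g (fun h4 => h3 (h4 ▸ hsU))]; exact h2
      · by_cases hg : g ∈ U0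
        · exact Or.inl (Finset.mem_insert_of_mem (hnear g h1 h3 hg))
        · exact Or.inr hg
    · obtain ⟨g, h1, h2, h3⟩ := hI.nbr f h
      have hgs : g ≠ ph p := by
        rcases h3 with h3 | h3
        · exact hVU g h3
        · exact fun h4 => h3 (h4 ▸ hI.sub hsU)
      refine ⟨g, h1, by rw [hup g hgs]; exact h2, ?_⟩
      rcases h3 with h3 | h3
      · exact Or.inl (Finset.mem_insert_of_mem h3)
      · exact Or.inr h3
  · intro f hf hfc
    rcases Finset.mem_insert.1 hf with h | h
    · rw [h, hups] at hfc
      obtain ⟨g, h1, h2, h3⟩ := hnb c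
      by_cases hg : g ∈ U0
      · have hgV := hnear g h1 h3 hg
        obtain ⟨g', h4, x, h5, h6, h7⟩ := hI.join g hgV h2
        refine ⟨g', ?_, x, h5, h6, h7⟩
        rw [h]
        have hgm : g ∈ ({a | a ∈ insert (ph p) V ∧ Function.update col (ph p) b a = c} : Set Fc) :=
          ⟨Finset.mem_insert_of_mem hgV, by rw [hup g (hVU g hgV)]; exact h2⟩
        exact (Jn.single hgm h1).trans (hmonoJ h4)
      · exact ⟨f, Jn.refl _, g, hg, by rw [h]; exact h1, by rw [← hI.out g hg]; exact h2⟩
    · rw [hup f (hVU f h)] at hfc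
      obtain ⟨g, h1, x, h2, h3, h4⟩ := hI.join f h hfc
      exact ⟨g, hmonoJ h1, x, h2, h3, h4⟩

theorem pb : PB := by
  intro hE hS U0 col0 z c hst hz A hA B hB
  set G : Finset Fc → (Fc → Bool) → List Bool → ℝ := fun U' col' _ =>
    @ite ℝ (B U' col') (Classical.propDecidable _) 1 0 with hG
  have hFinc : ∀ S : Finset Fc, Inc (fun ω : Finset Fc => A (ω ∪ S)) := by
    intro S ω ω' h1 h2
    exact hA _ _ (Finset.union_subset_union_left h1) h2
  have hend : ∀ U col (hi : List Bool) V, Inv U0 col0 z c U col V →
      G U col hi ≤ Pr U (fun ω => A (ω ∪ V.filter (fun f => col f = c))) := by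
    intro U col hi V hI
    rw [hG]
    simp only
    split_ifs with h
    · rw [← Pr_true U]
      apply Pr_mono
      intro ω _ _
      exact hA _ _ Finset.subset_union_right (hB U col V hI h)
    · exact Pr_nonneg _ _
  have key : ∀ n U col (hi : List Bool) V, Inv U0 col0 z c U col V →
      EV z (fun U' col' _ => B U' col') G n U col hi ≤
        Pr U (fun ω => A (ω ∪ V.filter (fun f => col f = c))) := by
    intro n
    induction n with
    | zero =>
      intro U col hi V hI
      rw [EV_zero]
      exact hend U col hi V hI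
    | succ n ih =>
      intro U col hi V hI
      cases hT : tipF U col with
      | none => rw [EV_none hT]; exact hend U col hi V hI
      | some s =>
        by_cases hstop : B U col ∨ s = z
        · rw [EV_stop hT hstop]; exact hend U col hi V hI
        · push Not at hstop
          rw [EV_step hT hstop.1 hstop.2]
          have hsU := tipF_mem hT
          have hsV : s ∉ V := fun h => (hI.disj s h).2 hsU
          have h1 := ih _ _ (true :: hi) _ (inv_step hE hS hI hT hstop.2 true)
          have h0 := ih _ _ (false :: hi) _ (inv_step hE hS hI hT hstop.2 false)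
          have hfil : ∀ b : Bool, (insert s V).filter (fun f => Function.update col s b f = c) =
              if b = c then insert s (V.filter (fun f => col f = c)) else
                V.filter (fun f => col f = c) := by
            intro b
            have hV : V.filter (fun f => Function.update col s b f = c) =
                V.filter (fun f => col f = c) := by
              apply Finset.filter_congr
              intro f hf
              have hne : f ≠ s := fun h => hsV (by rw [← h]; exact hf)
              rw [Function.update_of_ne hne]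
            rw [Finset.filter_insert, Function.update_self, hV]
          rw [hfil] at h1 h0
          have hstep := Pr_step (U := U) (U' := comp (U \ {s}) z) hsU (comp_sub _ _)
            (hFinc (V.filter (fun f => col f = c)))
          have hins : ∀ ω : Finset Fc, ω ∪ insert s (V.filter (fun f => col f = c)) =
              insert s ω ∪ V.filter (fun f => col f = c) := by
            intro ω
            rw [Finset.union_insert, Finset.insert_union]
          cases c
          · simp only [Bool.true_eq_false, if_false, if_true] at h1 h0 hins hstep ⊢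
            simp only [hins] at h0
            linarith
          · simp only [Bool.false_eq_true, if_false, if_true] at h1 h0 hins hstep ⊢
            simp only [hins] at h1
            linarith
  have hI0 : Inv U0 col0 z c U0 col0 ∅ := by
    refine ⟨hst, subset_rfl, hz, ?_, ?_, ?_, ?_, ?_⟩
    · intro f hf; simp at hf
    · intro f _; rfl
    · intro f h1 h2; exact absurd h1 h2
    · intro f hf; simp at hf
    · intro f hf; simp at hf
  have := key U0.card U0 col0 [] ∅ hI0
  simpa using this

end Pool.Agent.H15.SM
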