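import Pool.Agent.H15.SM.BDI

set_option autoImplicit false
open Set Filter Topology MeasureTheory Metric
open scoped Real ENNReal

/-! MP_2e6055, module SM/BD: XC (short crosscut). -/

namespace Pool.Agent.H15.SM

open Pool.Agent.H96.M7 Pool.Agent.H7.UC

lemma ext_le {k : ℝ → ℝ} {a b l : ℝ} (hk : ContinuousOn k (Icc a b)) (hab : a < b)
    (h : ∀ t ∈ Ioo a b, k t ≤ l) : ∀ t ∈ Icc a b, k t ≤ l := by
  intro t ht
  haveI : (𝓝[Ioo a b] t).NeBot :=
    mem_closure_iff_nhdsWithin_neBot.1 (by rwa [closure_Ioo hab.ne])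
  exact le_of_tendsto ((hk t ht).mono_left (nhdsWithin_mono _ Ioo_subset_Icc_self))
    (eventually_mem_nhdsWithin.mono h)

lemma exit1 {g : ℝ → ℂ} {β : ℝ} (hg : ContinuousOn g (Icc (-β) β)) {z : ℂ} {T l : ℝ} (hT : 0 < T)
    (hl : l < T / 2)
    (hlen : ∀ a b, -β < a → a ≤ b → b < β → (∀ t ∈ Icc a b, ‖g t - z‖ < T) → ‖g b - g a‖ ≤ l)
    {t0 t1 : ℝ} (h0 : -β < t0) (h01 : t0 ≤ t1) (h1 : t1 < β) (hz : ‖g t0 - z‖ < T / 2) :
    ‖g t1 - z‖ < T := by
  by_contra hcon
  rw [not_lt] at hcon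
  have hsub : Icc t0 t1 ⊆ Icc (-β) β := Icc_subset_Icc h0.le h1.le
  have hc : IsCompact {s | s ∈ Icc t0 t1 ∧ T ≤ ‖g s - z‖} := by
    have e : {s | s ∈ Icc t0 t1 ∧ T ≤ ‖g s - z‖} = Icc t0 t1 ∩ (fun s => ‖g s - z‖) ⁻¹' Ici T := rfl
    rw [e]
    exact isCompact_Icc.of_isClosed_subset
      ((((hg.mono hsub).sub continuousOn_const).norm).preimage_isClosed_of_isClosed isClosed_Icc
        isClosed_Ici) inter_subset_left
  obtain ⟨s, ⟨hs1, hs2⟩, hs3⟩ := hc.exists_isLeast ⟨t1, right_mem_Icc.2 h01, hcon⟩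
  have hs0 : t0 < s := by
    rcases lt_or_eq_of_le hs1.1 with h | h
    · exact h
    · rw [← h] at hs2; linarith
  have hlow : ∀ u ∈ Ico t0 s, ‖g u - z‖ < T := by
    intro u hu
    by_contra h
    have := hs3 ⟨⟨hu.1, hu.2.le.trans hs1.2⟩, not_lt.1 h⟩
    linarith [hu.2]
  have hle : ∀ u ∈ Ioo t0 s, ‖g u - g t0‖ ≤ l := by
    intro u hu
    exact hlen t0 u h0 hu.1.le (lt_of_lt_of_le hu.2 (hs1.2.trans h1.le))
      (fun t ht => hlow t ⟨ht.1, lt_of_le_of_lt ht.2 hu.2⟩)
  have hk : ContinuousOn (fun u => ‖g u - g t0‖) (Icc t0 s) :=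
    (((hg.mono ((Icc_subset_Icc_right hs1.2).trans hsub)).sub continuousOn_const).norm)
  have h2 := ext_le hk hs0 hle s (right_mem_Icc.2 hs0.le)
  have e : g s - z = (g s - g t0) + (g t0 - z) := by ring
  rw [e] at hs2
  have := norm_add_le (g s - g t0) (g t0 - z)
  linarith

lemma exit2 {g : ℝ → ℂ} {β : ℝ} (hg : ContinuousOn g (Icc (-β) β)) {z : ℂ} {T l : ℝ} (hT : 0 < T)
    (hl : l < T / 2)
    (hlen : ∀ a b, -β < a → a ≤ b → b < β → (∀ t ∈ Icc a b, ‖g t - z‖ < T) → ‖g b - g a‖ ≤ l)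
    {t0 : ℝ} (h0 : t0 ∈ Ioo (-β) β) (hz : ‖g t0 - z‖ < T / 2) :
    ∀ t ∈ Ioo (-β) β, ‖g t - z‖ < T := by
  intro t ht
  rcases le_total t0 t with h | h
  · exact exit1 hg hT hl hlen h0.1 h ht.2 hz
  · have hg' : ContinuousOn (fun s => g (-s)) (Icc (-β) β) := by
      apply hg.comp (by fun_prop)
      intro s hs
      exact ⟨by linarith [hs.2], by linarith [hs.1]⟩
    have := exit1 (g := fun s => g (-s)) hg' hT hl (t0 := -t0) (t1 := -t) (z := z) (by
        intro a b ha hab hb hab'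
        rw [norm_sub_rev]
        refine hlen (-b) (-a) (by linarith) (by linarith) (by linarith) (fun s hs => ?_)
        have := hab' (-s) ⟨by linarith [hs.2], by linarith [hs.1]⟩
        simpa using this) (by linarith [h0.2]) (by linarith) (by linarith [ht.1]) (by simpa using hz)
    simpa using this

/-- **XC.** -/
theorem xc : XC := by
  intro D φ z p T l r1 r2 hφ hp hr1 hr12 hr2 hT hl hlT hlog
  have hp0 : p ≠ 0 := by rintro rfl; simp at hp
  set Om : Set ℂ := ball 0 1 ∩ φ ⁻¹' ball z T with hOm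
  have ho : IsOpen Om :=
    (hφ.cont.mono ball_subset_closedBall).isOpen_inter_preimage isOpen_ball isOpen_ball
  have hd : DifferentiableOn ℂ φ Om := hφ.diff.mono inter_subset_left
  have hi : InjOn φ Om := hφ.inj.mono (inter_subset_left.trans ball_subset_closedBall)
  have hvol : volume (φ '' Om) ≤ ENNReal.ofReal (π * T ^ 2) := by
    refine (measure_mono (show φ '' Om ⊆ ball z T by
      rintro _ ⟨w, hw, rfl⟩; exact hw.2)).trans ?_
    rw [Complex.volume_ball, mul_comm π, ENNReal.ofReal_mul (by positivity),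
      ENNReal.ofReal_pow hT.le]
    apply le_of_eq
    congr 1
    rw [← ENNReal.ofReal_coe_nnreal]
    rfl
  obtain ⟨r, ⟨hrr1, hrr2⟩, hshort⟩ := exists_short ho hd hi (by positivity) hvol p hr1 hr12
  have hr0 : 0 < r := hr1.trans hrr1
  have hr1' : r < 1 := hrr2.trans_le hr2
  have hlen0 : len φ Om p r ≤ ENNReal.ofReal l := by
    have h1 : len φ Om p r ^ 2 ≤ ENNReal.ofReal l ^ 2 := by
      rw [← ENNReal.ofReal_pow hl.le]
      refine hshort.trans (ENNReal.ofReal_le_ofReal ?_)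
      refine le_trans (le_of_eq ?_) hlog
      ring
    exact (ENNReal.pow_le_pow_left_iff (by norm_num)).1 h1
  refine ⟨r, hrr1, hrr2, ?_⟩
  -- parametrisation
  set u : ℝ → ℂ := fun t => p * (1 - r * Complex.exp (t * Complex.I)) with hu
  have hpα : Complex.exp (p.arg * Complex.I) = p := by
    have := Complex.norm_mul_exp_arg_mul_I p
    rwa [hp, Complex.ofReal_one, one_mul] at this
  have hucm : ∀ t : ℝ, circleMap p r (p.arg + π + t) = u t := by
    intro t
    have e : ((p.arg + π + t : ℝ) : ℂ) * Complex.I = p.arg * Complex.I + (π * Complex.I + t * Complex.I) := by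
      push_cast; ring
    rw [circleMap, e, Complex.exp_add, Complex.exp_add, hpα, Complex.exp_pi_mul_I, hu]
    ring
  have hun : ∀ t : ℝ, ‖u t‖ ^ 2 = 1 - 2 * r * Real.cos t + r ^ 2 := by
    intro t
    rw [hu]
    simp only
    rw [norm_mul, hp, one_mul, Complex.sq_norm, Complex.normSq_apply]
    have e1 : (1 - (r : ℂ) * Complex.exp (t * Complex.I)).re = 1 - r * Real.cos t := by
      rw [Complex.sub_re, Complex.one_re, Complex.re_ofReal_mul, Complex.exp_ofReal_mul_I_re]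
    have e2 : (1 - (r : ℂ) * Complex.exp (t * Complex.I)).im = -(r * Real.sin t) := by
      rw [Complex.sub_im, Complex.one_im, Complex.im_ofReal_mul, Complex.exp_ofReal_mul_I_im]; ring
    rw [e1, e2]
    nlinarith [Real.sin_sq_add_cos_sq t]
  set β := Real.arccos (r / 2) with hβ
  have hβ0 : 0 < β := Real.arccos_pos.2 (by linarith)
  have hβπ : β ≤ π / 2 := Real.arccos_le_pi_div_two.2 (by linarith)
  have hcosβ : Real.cos β = r / 2 := Real.cos_arccos (by linarith) (by linarith)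
  have hcos : ∀ t : ℝ, |t| ≤ β → r / 2 ≤ Real.cos t := by
    intro t ht
    rw [← hcosβ, ← Real.cos_abs t]
    exact Real.cos_le_cos_of_nonneg_of_le_pi (abs_nonneg t) (by linarith [Real.pi_pos]) ht
  have hcos' : ∀ t : ℝ, |t| < β → r / 2 < Real.cos t := by
    intro t ht
    rw [← hcosβ, ← Real.cos_abs t]
    exact Real.cos_lt_cos_of_nonneg_of_le_pi (abs_nonneg t) (by linarith [Real.pi_pos]) ht
  have hmem : ∀ t : ℝ, |t| ≤ β → u t ∈ closedBall (0 : ℂ) 1 := by
    intro t ht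
    rw [mem_closedBall_zero_iff]
    have h1 := hun t
    have h2 := hcos t ht
    have h3 : ‖u t‖ ^ 2 ≤ 1 ^ 2 := by rw [h1]; nlinarith
    exact (sq_le_sq₀ (norm_nonneg _) zero_le_one).1 h3
  have hmem' : ∀ t : ℝ, |t| < β → u t ∈ ball (0 : ℂ) 1 := by
    intro t ht
    rw [mem_ball_zero_iff]
    have h1 := hun t
    have h2 := hcos' t ht
    have h3 : ‖u t‖ ^ 2 < 1 ^ 2 := by rw [h1]; nlinarith
    exact (sq_lt_sq₀ (norm_nonneg _) zero_le_one).1 h3
  have huc : Continuous u := by rw [hu]; fun_prop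
  have hg : ContinuousOn (fun t => φ (u t)) (Icc (-β) β) :=
    hφ.cont.comp huc.continuousOn (fun t ht => hmem t (abs_le.2 ht))
  have hlen : ∀ a b, -β < a → a ≤ b → b < β → (∀ t ∈ Icc a b, ‖φ (u t) - z‖ < T) →
      ‖φ (u b) - φ (u a)‖ ≤ l := by
    intro a b ha hab hb hT'
    have h1 := edist_arc ho hd p hr0.le (a := p.arg + π + a) (b := p.arg + π + b) (by linarith)
      (by linarith [Real.pi_pos]) (by
        intro θ hθ
        have e : θ = p.arg + π + (θ - p.arg - π) := by ring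
        rw [e, hucm]
        have h2 : θ - p.arg - π ∈ Icc a b := ⟨by linarith [hθ.1], by linarith [hθ.2]⟩
        refine ⟨hmem' _ (abs_lt.2 ⟨by linarith [h2.1], by linarith [h2.2]⟩), ?_⟩
        rw [mem_preimage, mem_ball, dist_eq_norm]
        exact hT' _ h2)
    rw [hucm, hucm] at h1
    have h2 := h1.trans hlen0
    rw [← ofReal_norm, ENNReal.ofReal_le_ofReal_iff hl.le] at h2
    exact h2
  -- every point of the closed arc
  have hpar : ∀ w : ℂ, ‖w‖ ≤ 1 → ‖w - p‖ = r → ∃ t ∈ Icc (-β) β, u t = w := by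
    intro w hw hwp
    set v : ℂ := (p - w) / (r * p) with hv
    have hvn : ‖v‖ = 1 := by
      rw [hv, norm_div, norm_mul, hp, mul_one, Complex.norm_real, Real.norm_eq_abs,
        abs_of_pos hr0, norm_sub_rev, hwp, div_self hr0.ne']
    have hexp : Complex.exp (v.arg * Complex.I) = v := by
      have := Complex.norm_mul_exp_arg_mul_I v
      rwa [hvn, Complex.ofReal_one, one_mul] at this
    have huw : u v.arg = w := by
      rw [hu]
      simp only
      rw [hexp, hv]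
      have hrc : (r : ℂ) ≠ 0 := by exact_mod_cast hr0.ne'
      field_simp
      ring
    refine ⟨v.arg, ?_, huw⟩
    have h1 := hun v.arg
    rw [huw] at h1
    have h2 : ‖w‖ ^ 2 ≤ 1 := by nlinarith [norm_nonneg w]
    have h3 : r / 2 ≤ Real.cos v.arg := by
      have : 0 ≤ r * (2 * Real.cos v.arg - r) := by nlinarith
      have := nonneg_of_mul_nonneg_right this hr0
      linarith
    refine abs_le.1 (?_ : |v.arg| ≤ β)
    by_contra hcon
    rw [not_le] at hcon
    have h4 := Real.cos_lt_cos_of_nonneg_of_le_pi hβ0.le (Complex.abs_arg_le_pi v) hcon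
    rw [Real.cos_abs, hcosβ] at h4
    linarith
  by_cases hex : ∃ t0 ∈ Ioo (-β) β, ‖φ (u t0) - z‖ < T / 2
  · right
    obtain ⟨t0, ht0, hz0⟩ := hex
    have hin := exit2 hg hT hlT hlen ht0 hz0
    have h1 : ∀ s ∈ Ioo (-β) β, ∀ t ∈ Ioo (-β) β, ‖φ (u t) - φ (u s)‖ ≤ l := by
      intro s hs t ht
      rcases le_total s t with h | h
      · exact hlen s t hs.1 h ht.2 (fun x hx => hin x ⟨lt_of_lt_of_le hs.1 hx.1, lt_of_le_of_lt hx.2 ht.2⟩)
      · rw [norm_sub_rev]
        exact hlen t s ht.1 h hs.2 (fun x hx => hin x ⟨lt_of_lt_of_le ht.1 hx.1, lt_of_le_of_lt hx.2 hs.2⟩)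
    have h2 : ∀ s ∈ Ioo (-β) β, ∀ t ∈ Icc (-β) β, ‖φ (u t) - φ (u s)‖ ≤ l := fun s hs =>
      ext_le (hg.sub continuousOn_const).norm (by linarith) (h1 s hs)
    have h3 : ∀ t ∈ Icc (-β) β, ∀ s ∈ Icc (-β) β, ‖φ (u t) - φ (u s)‖ ≤ l := fun t ht =>
      ext_le (continuousOn_const.sub hg).norm (by linarith) (fun s hs => h2 s hs t ht)
    intro w w' hw hw' hwp hwp'
    obtain ⟨t, ht, rfl⟩ := hpar w hw hwp
    obtain ⟨t', ht', rfl⟩ := hpar w' hw' hwp'
    exact h3 t ht t' ht'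
  · left
    push Not at hex
    have h1 : ∀ t ∈ Icc (-β) β, -‖φ (u t) - z‖ ≤ -(T / 2) :=
      ext_le ((hg.sub continuousOn_const).norm.neg) (by linarith) (fun t ht => by
        linarith [hex t ht])
    intro w hw hwp
    obtain ⟨t, ht, rfl⟩ := hpar w hw hwp
    linarith [h1 t ht]

end Pool.Agent.H15.SM
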