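import Pool.Agent.H15.SM.BDF
import Pool.Agent.H15.SM.XC
import Pool.Agent.H33.SM.CF
import Pool.Agent.H33.SM.NF
import Pool.Agent.H37.SM.Lm
import Pool.Agent.H64.SM.GR
import Pool.Agent.H22.SM.EI
import Pool.Agent.H22.SM.ECo
import Pool.Agent.H50.SM.Ec
import Pool.Agent.H52.Tri.D5
import Pool.Agent.H15.SM.PB

set_option autoImplicit false
open Pool.Agent.H75.Perc Pool.Agent.H7.UC Pool.Agent.H74.Tri Pool.Agent.H93.SM

/-! MP_2e6055, module SM: BD (bad states). -/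

namespace Pool.Agent.H15.SM

theorem bd0 (hPB : PB) : BD :=
  bd_of Pool.Agent.H64.SM.gr xc Pool.Agent.H22.SM.ei Pool.Agent.H22.SM.eco lm hPB
    Pool.Agent.H33.SM.cf Pool.Agent.H33.SM.nf Pool.Agent.H93.SM.ect Pool.Agent.H93.SM.ecs
    Pool.Agent.H52.Tri.d5

theorem bd : BD := bd0 pb

end Pool.Agent.H15.SM
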