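import Pool.Agent.H15.SM.HS

set_option autoImplicit false
open Set Filter Topology MeasureTheory
open scoped Real ENNReal

/-! MP_2e6055, module SM/BD: length-area for the radii of a chart, general form. -/

namespace Pool.Agent.H15.SM

open Pool.Agent.H96.M7

/-- **Crossing estimate** for one radius. -/
lemma radius_le2 {φ : ℂ → ℂ} (hc : ContinuousOn φ (Metric.closedBall 0 1))
    (hd : DifferentiableOn ℂ φ (Metric.ball 0 1)) {x : ℂ} {r R : ℝ} (hr : 0 < r) (hrR : r < R) (θ : ℝ)
    {a b : ℝ} (ha : 0 < a) (hab : a ≤ b) (hb : b ≤ 1)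
    (h : (R ≤ ‖φ (circleMap 0 a θ) - x‖ ∧ ‖φ (circleMap 0 b θ) - x‖ ≤ r) ∨
      (‖φ (circleMap 0 a θ) - x‖ ≤ r ∧ R ≤ ‖φ (circleMap 0 b θ) - x‖)) :
    ENNReal.ofReal (Real.log (R / r)) ≤
      ∫⁻ s in Ioo a b, FF φ x r R (circleMap 0 s θ) := by
  have hR : 0 < R := hr.trans hrR
  set g : ℝ → ℝ := fun s => ‖φ (circleMap 0 s θ) - x‖ with hgdef
  have hcm : Continuous (fun s : ℝ => circleMap 0 s θ) := by
    unfold circleMap; fun_prop
  have hmem : ∀ s ∈ Icc a b, circleMap 0 s θ ∈ Metric.closedBall (0 : ℂ) 1 := by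
    intro s hs
    rw [mem_closedBall_zero_iff, norm_circleMap_zero, abs_of_nonneg (by linarith [hs.1])]
    linarith [hs.2]
  have hmem' : ∀ s ∈ Ioo a b, circleMap 0 s θ ∈ Metric.ball (0 : ℂ) 1 := by
    intro s hs
    rw [mem_ball_zero_iff, norm_circleMap_zero, abs_of_nonneg (by linarith [hs.1])]
    linarith [hs.2]
  have hg : ContinuousOn g (Icc a b) :=
    ((hc.comp hcm.continuousOn hmem).sub continuousOn_const).norm
  -- the estimate with smaller levels
  have key : ∀ ε : ℝ, 0 < ε → ε < Real.log (R / r) / 2 →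
      ENNReal.ofReal (Real.log (R / r) - 2 * ε) ≤
        ∫⁻ s in Ioo a b, FF φ x r R (circleMap 0 s θ) := by
    intro ε hε hε2
    have e1 : r < r * Real.exp ε := by
      have := Real.add_one_le_exp ε
      nlinarith
    have e3 : R * Real.exp (-ε) < R := by
      have : Real.exp (-ε) < 1 := by
        rw [← Real.exp_zero]; exact Real.exp_lt_exp.2 (by linarith)
      nlinarith
    have e2 : r * Real.exp ε < R * Real.exp (-ε) := by
      have h1 : Real.exp (2 * ε) < R / r := by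
        rw [← Real.lt_log_iff_exp_lt (by positivity)]; linarith
      rw [lt_div_iff₀ hr] at h1
      have h2 : Real.exp (2 * ε) * Real.exp (-ε) = Real.exp ε := by
        rw [← Real.exp_add]; congr 1; ring
      have h3 : 0 < Real.exp (-ε) := Real.exp_pos _
      nlinarith
    obtain ⟨c, d, hc1, hcd, hd1, hgcd, hin⟩ := cross2 hab hg e1 e2 e3 (by
      rcases h with h | h
      · exact Or.inl h
      · exact Or.inr h)
    have hcdI : ∀ s ∈ Icc c d, s ∈ Ioo a b := fun s hs =>
      ⟨lt_of_lt_of_le hc1 hs.1, lt_of_le_of_lt hs.2 hd1⟩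
    have hpos : ∀ s ∈ Icc c d, φ (circleMap 0 s θ) - x ≠ 0 := by
      intro s hs h0
      have := (hin s hs).1
      simp only [hgdef, h0, norm_zero] at this
      have h1 : 0 < r * Real.exp ε := by positivity
      linarith
    have hcmd : ContDiff ℝ 1 (fun s : ℝ => circleMap 0 s θ) := by
      unfold circleMap
      exact contDiff_const.add ((Complex.ofRealCLM.contDiff).mul contDiff_const)
    have hC : ContDiffOn ℝ 1 (fun s => φ (circleMap 0 s θ) - x) (Icc c d) := by
      have h1 : ContDiffOn ℂ 1 φ (Metric.ball 0 1) := hd.contDiffOn Metric.isOpen_ball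
      have h2 : ContDiffOn ℝ 1 φ (Metric.ball 0 1) := h1.restrict_scalars ℝ
      exact (h2.comp hcmd.contDiffOn (fun s hs => hmem' s (hcdI s hs))).sub contDiffOn_const
    have hL : ContDiffOn ℝ 1 (fun s => Real.log ‖φ (circleMap 0 s θ) - x‖) (Icc c d) := by
      apply (hC.norm ℝ hpos).log
      intro s hs
      exact norm_ne_zero_iff.2 (hpos s hs)
    have hI := enorm_sub_le_lintegral_deriv_of_contDiffOn_Icc hL hcd.le
    have hval : ENNReal.ofReal (Real.log (R / r) - 2 * ε) ≤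
        ‖Real.log ‖φ (circleMap 0 d θ) - x‖ - Real.log ‖φ (circleMap 0 c θ) - x‖‖ₑ := by
      rw [← ofReal_norm, Real.norm_eq_abs]
      apply ENNReal.ofReal_le_ofReal
      have l1 : Real.log (R * Real.exp (-ε)) = Real.log R - ε := by
        rw [Real.log_mul hR.ne' (Real.exp_pos _).ne', Real.log_exp]; ring
      have l2 : Real.log (r * Real.exp ε) = Real.log r + ε := by
        rw [Real.log_mul hr.ne' (Real.exp_pos _).ne', Real.log_exp]
      have l3 : Real.log (R / r) = Real.log R - Real.log r := Real.log_div hR.ne' hr.ne'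
      rcases hgcd with ⟨g1, g2⟩ | ⟨g1, g2⟩
      · simp only [hgdef] at g1 g2
        rw [g1, g2, l1, l2, l3]
        rw [abs_sub_comm]
        refine le_trans (le_of_eq ?_) (le_abs_self _)
        ring
      · simp only [hgdef] at g1 g2
        rw [g1, g2, l1, l2, l3]
        refine le_trans (le_of_eq ?_) (le_abs_self _)
        ring
    refine (hval.trans hI).trans ?_
    refine le_trans ?_ (lintegral_mono_set (s := Icc c d) (fun s hs => hcdI s hs))
    apply setLIntegral_mono' measurableSet_Icc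
    intro s hs
    have hsb := hmem' s (hcdI s hs)
    have h1 : HasDerivAt φ (deriv φ (circleMap 0 s θ)) (circleMap 0 s θ) :=
      (hd.differentiableAt (Metric.isOpen_ball.mem_nhds hsb)).hasDerivAt
    have h2 : HasDerivAt (fun s : ℝ => circleMap 0 s θ) (Complex.exp (θ * Complex.I)) s := by
      unfold circleMap
      have := ((hasDerivAt_id s).ofReal_comp.mul_const (Complex.exp (θ * Complex.I))).const_add (0 : ℂ)
      simpa using this
    have h3 : HasDerivAt (fun s : ℝ => φ (circleMap 0 s θ) - x)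
        (deriv φ (circleMap 0 s θ) * Complex.exp (θ * Complex.I)) s :=
      (h1.comp_of_eq s h2 rfl).sub_const x
    obtain ⟨D, h4, h5⟩ := hasDerivAt_logn h3 (hpos s hs)
    rw [h4.deriv]
    have hw : wt x r R (φ (circleMap 0 s θ)) =
        ENNReal.ofReal (1 / ‖φ (circleMap 0 s θ) - x‖) := by
      unfold wt
      rw [indicator_of_mem]
      have := hin s hs
      exact ⟨lt_of_lt_of_le e1 this.1, lt_of_le_of_lt this.2 e3⟩
    unfold FF
    rw [hw, ← ofReal_norm, ← ofReal_norm, ← ENNReal.ofReal_mul (norm_nonneg _), Real.norm_eq_abs]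
    apply ENNReal.ofReal_le_ofReal
    rw [norm_mul, Complex.norm_exp_ofReal_mul_I, mul_one] at h5
    rw [mul_one_div]
    exact h5
  -- limit
  have hlog : 0 < Real.log (R / r) := Real.log_pos ((one_lt_div hr).2 hrR)
  have ht : Tendsto (fun ε : ℝ => ENNReal.ofReal (Real.log (R / r) - 2 * ε)) (𝓝[>] 0)
      (𝓝 (ENNReal.ofReal (Real.log (R / r)))) := by
    apply (ENNReal.continuous_ofReal.tendsto _).comp
    have : Tendsto (fun ε : ℝ => Real.log (R / r) - 2 * ε) (𝓝 0) (𝓝 (Real.log (R / r) - 2 * 0)) := by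
      apply Continuous.tendsto
      fun_prop
    rw [mul_zero, sub_zero] at this
    exact this.mono_left nhdsWithin_le_nhds
  refine le_of_tendsto ht ?_
  filter_upwards [Ioo_mem_nhdsGT (show (0 : ℝ) < Real.log (R / r) / 2 by positivity)] with ε hε
  exact key ε hε.1 hε.2

lemma half_le2 {G : ℂ → ℝ≥0∞} (hGm : Measurable G) {s0 : ℝ} (hs0 : 0 < s0) :
    ∫⁻ s in Ioo s0 1, ∫⁻ θ in Ioo (-π) π, G (circleMap 0 s θ) ≤ ENNReal.ofReal (1 / s0) * ∫⁻ z, G z := by
  have hGJ : Measurable (fun p : ℝ × ℝ => G (circleMap 0 p.1 p.2)) :=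
    hGm.comp (measurable_circleMap2 0)
  have hm1 : ∀ s : ℝ, Measurable (fun θ : ℝ => G (circleMap 0 s θ)) := fun s =>
    hGJ.comp (measurable_const.prodMk measurable_id)
  have hm3 : Measurable (fun p : ℝ × ℝ => ENNReal.ofReal p.1 * G (circleMap 0 p.1 p.2)) :=
    (ENNReal.measurable_ofReal.comp measurable_fst).mul hGJ
  have hm2 : Measurable (fun s : ℝ => ∫⁻ θ in Ioo (-π) π, ENNReal.ofReal s * G (circleMap 0 s θ)) :=
    hm3.lintegral_prod_right'
  have h1 : ENNReal.ofReal (1 / s0) * ∫⁻ z, G z = ∫⁻ s in Ioi (0 : ℝ),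
      ENNReal.ofReal (1 / s0) * ∫⁻ θ in Ioo (-π) π, ENNReal.ofReal s * G (circleMap 0 s θ) := by
    rw [polar G hGm 0, lintegral_const_mul _ hm2]
  rw [h1]
  have hsub : Ioo s0 1 ⊆ Ioi 0 := by
    intro s hs
    exact hs0.trans hs.1
  refine le_trans ?_ (lintegral_mono_set hsub)
  apply setLIntegral_mono' measurableSet_Ioo
  intro s hs
  have h2 : ENNReal.ofReal (1 / s0) * ∫⁻ θ in Ioo (-π) π, ENNReal.ofReal s * G (circleMap 0 s θ) =
      ∫⁻ θ in Ioo (-π) π, ENNReal.ofReal (1 / s0) * (ENNReal.ofReal s * G (circleMap 0 s θ)) := by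
    rw [lintegral_const_mul _ ((hm1 s).const_mul (ENNReal.ofReal s))]
  rw [h2]
  apply lintegral_mono
  intro θ
  simp only
  rw [← mul_assoc]
  have h3 : (1 : ℝ≥0∞) ≤ ENNReal.ofReal (1 / s0) * ENNReal.ofReal s := by
    rw [← ENNReal.ofReal_mul (by positivity), ENNReal.one_le_ofReal, div_mul_eq_mul_div, one_mul,
      one_le_div hs0]
    exact hs.1.le
  calc G (circleMap 0 s θ) = 1 * G (circleMap 0 s θ) := (one_mul _).symm
    _ ≤ _ := by gcongr

/-- **HS2**: angles whose radius crosses the annulus between the radius `s0` and a later point. -/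
theorem hs2 {D : Set ℂ} {φ : ℂ → ℂ} (hφ : Pool.Agent.H7.UC.DiscChart D φ) {s0 : ℝ} (hs0 : 0 < s0)
    (x : ℂ) {r R : ℝ} (hr : 0 < r) (hrR : r < R) {J : Set ℝ} (hJ : J ⊆ Icc 0 (2 * π))
    (hJm : MeasurableSet J)
    (h : ∀ t ∈ J, ∃ s ∈ Icc s0 1,
      (‖φ (s * Complex.exp (t * Complex.I)) - x‖ ≤ r ∧
        R ≤ ‖φ (s0 * Complex.exp (t * Complex.I)) - x‖) ∨
      (R ≤ ‖φ (s * Complex.exp (t * Complex.I)) - x‖ ∧
        ‖φ (s0 * Complex.exp (t * Complex.I)) - x‖ ≤ r)) :
    volume J ≤ ENNReal.ofReal (Real.sqrt 2 * π / s0 / Real.sqrt (Real.log (R / r))) := by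
  have hlog : 0 < Real.log (R / r) := Real.log_pos ((one_lt_div hr).2 hrR)
  set G : ℂ → ℝ≥0∞ := (Metric.ball (0 : ℂ) 1).indicator (FF φ x r R) with hG
  have hGm : Measurable G := measurable_FF hφ.cont x r R
  have hGJ : Measurable (fun p : ℝ × ℝ => G (circleMap 0 p.1 p.2)) :=
    hGm.comp (measurable_circleMap2 0)
  have h1 : ∀ θ ∈ J, ENNReal.ofReal (Real.log (R / r)) ≤
      ∫⁻ s in Ioo s0 1, G (circleMap 0 s θ) := by
    intro θ hθ
    have e1 : ∀ s : ℝ, s * Complex.exp (θ * Complex.I) = circleMap 0 s θ := by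
      intro s; simp [circleMap]
    obtain ⟨s1, hs1, h1⟩ := h θ hθ
    rw [e1, e1] at h1
    have h2 := radius_le2 hφ.cont hφ.diff (x := x) hr hrR θ hs0 hs1.1 hs1.2 (by
      rcases h1 with h1 | h1
      · exact Or.inl ⟨h1.2, h1.1⟩
      · exact Or.inr ⟨h1.2, h1.1⟩)
    refine h2.trans ?_
    refine le_trans ?_ (lintegral_mono_set (s := Ioo s0 s1) (Ioo_subset_Ioo_right hs1.2))
    apply le_of_eq
    apply setLIntegral_congr_fun measurableSet_Ioo
    intro s hs
    simp only [hG]
    rw [indicator_of_mem]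
    rw [mem_ball_zero_iff, norm_circleMap_zero, abs_of_nonneg (by linarith [hs.1])]
    linarith [hs.2, hs1.2]
  have h2 : ENNReal.ofReal (Real.log (R / r)) * volume J ≤
      ∫⁻ θ in J, ∫⁻ s in Ioo s0 1, G (circleMap 0 s θ) := by
    rw [← setLIntegral_const]
    exact setLIntegral_mono' hJm h1
  have h3 : ∫⁻ θ in J, ∫⁻ s in Ioo s0 1, G (circleMap 0 s θ) ≤
      ∫⁻ s in Ioo s0 1, ∫⁻ θ in Ioo (-π) π, G (circleMap 0 s θ) := by
    rw [lintegral_lintegral_swap]
    · apply lintegral_mono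
      intro s
      simp only
      rw [← angle_shift G s]
      exact lintegral_mono_set hJ
    · exact (hGJ.comp measurable_swap).aemeasurable
  have h4 : ∫⁻ s in Ioo s0 1, ∫⁻ θ in Ioo (-π) π, G (circleMap 0 s θ) ≤
      ENNReal.ofReal (1 / s0) * ∫⁻ z, G z := half_le2 hGm hs0
  have h5 := disc_le hφ.cont hφ.inj hφ.diff x hr hrR
  have hsp : 0 < Real.sqrt (Real.log (R / r)) := Real.sqrt_pos.2 hlog
  have hss : Real.sqrt (Real.log (R / r)) * Real.sqrt (Real.log (R / r)) = Real.log (R / r) :=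
    Real.mul_self_sqrt hlog.le
  have h6 : ENNReal.ofReal (Real.log (R / r)) * volume J ≤
      ENNReal.ofReal (Real.log (R / r)) *
        ENNReal.ofReal (Real.sqrt 2 * π / s0 / Real.sqrt (Real.log (R / r))) := by
    refine (h2.trans (h3.trans h4)).trans ?_
    rw [← ENNReal.ofReal_mul hlog.le]
    refine (mul_le_mul_right h5 _).trans ?_
    rw [← ENNReal.ofReal_mul (by positivity)]
    apply ENNReal.ofReal_le_ofReal
    apply le_of_eq
    rw [mul_div_assoc' (Real.log (R / r)), eq_div_iff hsp.ne']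
    calc 1 / s0 * (Real.sqrt 2 * π * Real.sqrt (Real.log (R / r))) * Real.sqrt (Real.log (R / r))
        = (Real.sqrt (Real.log (R / r)) * Real.sqrt (Real.log (R / r))) * (Real.sqrt 2 * π / s0) := by
          ring
      _ = _ := by rw [hss]
  rwa [ENNReal.mul_le_mul_iff_right (by simpa using hlog) ENNReal.ofReal_ne_top] at h6

end Pool.Agent.H15.SM
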