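import Pool.Agent.H15.SM.BDA
import Pool.Agent.H15.SM.HS2

set_option autoImplicit false
open Pool.Agent.H75.Perc Metric Set Filter Topology Pool.Agent.H7.UC Pool.Agent.H74.Tri
open Pool.Agent.H93.SM Pool.Agent.H11.UC

/-! MP_2e6055, module SM/BD: radii of the later charts reach the crosscut or a near face. -/

namespace Pool.Agent.H15.SM

/-- the two sides of the crosscut `|w - p| = r` -/
def S1 (φ : ℂ → ℂ) (p : ℂ) (r : ℝ) : Set ℂ := φ '' {w | ‖w‖ ≤ 1 ∧ ‖w - p‖ ≤ r}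
def S2 (φ : ℂ → ℂ) (p : ℂ) (r : ℝ) : Set ℂ := φ '' {w | ‖w‖ ≤ 1 ∧ r ≤ ‖w - p‖}

lemma isClosed_S1 {D : Set ℂ} {φ : ℂ → ℂ} (h : DiscChart D φ) (p : ℂ) (r : ℝ) :
    IsClosed (S1 φ p r) := by
  have e : {w : ℂ | ‖w‖ ≤ 1 ∧ ‖w - p‖ ≤ r} = closedBall 0 1 ∩ {w : ℂ | ‖w - p‖ ≤ r} := by
    ext w; simp
  have hc : IsCompact {w : ℂ | ‖w‖ ≤ 1 ∧ ‖w - p‖ ≤ r} := by
    rw [e]
    exact (isCompact_closedBall 0 1).inter_right (isClosed_le (by fun_prop) continuous_const)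
  exact (hc.image_of_continuousOn (h.cont.mono (by rw [e]; exact inter_subset_left))).isClosed

lemma isClosed_S2 {D : Set ℂ} {φ : ℂ → ℂ} (h : DiscChart D φ) (p : ℂ) (r : ℝ) :
    IsClosed (S2 φ p r) := by
  have e : {w : ℂ | ‖w‖ ≤ 1 ∧ r ≤ ‖w - p‖} = closedBall 0 1 ∩ {w : ℂ | r ≤ ‖w - p‖} := by
    ext w; simp
  have hc : IsCompact {w : ℂ | ‖w‖ ≤ 1 ∧ r ≤ ‖w - p‖} := by
    rw [e]
    exact (isCompact_closedBall 0 1).inter_right (isClosed_le continuous_const (by fun_prop))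
  exact (hc.image_of_continuousOn (h.cont.mono (by rw [e]; exact inter_subset_left))).isClosed

lemma cover_S {D : Set ℂ} {φ : ℂ → ℂ} (h : DiscChart D φ) (p : ℂ) (r : ℝ) :
    closure D ⊆ S1 φ p r ∪ S2 φ p r := by
  rw [← h.imgc]
  rintro _ ⟨w, hw, rfl⟩
  rw [mem_closedBall_zero_iff] at hw
  rcases le_total ‖w - p‖ r with h1 | h1
  · exact Or.inl ⟨w, ⟨hw, h1⟩, rfl⟩
  · exact Or.inr ⟨w, ⟨hw, h1⟩, rfl⟩

lemma inter_S {D : Set ℂ} {φ : ℂ → ℂ} (h : DiscChart D φ) {p : ℂ} {r : ℝ} {y : ℂ}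
    (hy : y ∈ S1 φ p r ∩ S2 φ p r) : ∃ w, ‖w‖ ≤ 1 ∧ ‖w - p‖ = r ∧ φ w = y := by
  obtain ⟨⟨w, ⟨h1, h2⟩, rfl⟩, ⟨w', ⟨h3, h4⟩, h5⟩⟩ := hy
  have := h.inj (mem_closedBall_zero_iff.2 h3) (mem_closedBall_zero_iff.2 h1) h5
  rw [this] at h4
  exact ⟨w, h1, le_antisymm h2 h4, rfl⟩

lemma closure_reg_mono {U V : Finset Fc} (h : U ⊆ V) : closure (reg U) ⊆ closure (reg V) :=
  closure_mono (reg_mono h)

lemma cell_sub_closure {U : Finset Fc} {f : Fc} (hf : f ∈ U) : cell f ⊆ closure (reg U) := by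
  rw [closure_reg]
  intro y hy
  exact mem_creg.2 ⟨f, hf, hy⟩

/-- no path of revealed faces of colour `c` from the crosscut `X` to `Fr` -/
def NoP (V : Finset Fc) (col : Fc → Bool) (c : Bool) (X : Set ℂ) (Fr : Set Fc) : Prop :=
  ∀ f g, f ∈ V → col f = c → g ∈ V → col g = c → Jn {a | a ∈ V ∧ col a = c} f g →
    (cell f ∩ X).Nonempty → g ∉ Fr

variable {U0 : Finset Fc} {col0 : Fc → Bool} {z : Fc} {c : Bool}

/-- outer edges of colour `c` lie in `S1` -/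
def Loc (U0 : Finset Fc) (col0 : Fc → Bool) (c : Bool) (F1 : Set ℂ) : Prop :=
  ∀ v k, isB U0 (ed v k) → (∀ f, (f = fc v (k + 1) ∨ f = fc v (k + 2)) → f ∉ U0 → col0 f = c) →
    segment ℝ (pv v) (pv (nb v k)) ⊆ F1

lemma mid_mem_segment (v : Vx) (k : Fin 3) : mid v k ∈ segment ℝ (pv v) (pv (nb v k)) := by
  rw [mem_segment_ept]
  refine ⟨1 / 2, by norm_num, ?_⟩
  apply ext_PQ
  · rw [P_ept]
    have : P (mid v k) = (P (ctr (fc v (k + 1))) + P (ctr (fc v (k + 2)))) / 2 := by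
      unfold mid P; simp; ring
    rw [this, P_ctr, P_ctr, cp_fc, cp_fc]
    push_cast
    rcases sg_cases v with h | h <;> rw [h] <;> fin_cases k <;> simp [dP] <;> ring
  · rw [Q_ept]
    have : Q (mid v k) = (Q (ctr (fc v (k + 1))) + Q (ctr (fc v (k + 2)))) / 2 := by
      unfold mid Q; simp; ring
    rw [this, Q_ctr, Q_ctr, cq_fc, cq_fc]
    push_cast
    rcases sg_cases v with h | h <;> rw [h] <;> fin_cases k <;> simp [dQ] <;> ring

/-- (a) the distance does not drop -/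
theorem no_drop (hCF : CF) (hNF : NF) {U : Finset Fc} {col : Fc → Bool} {V : Finset Fc}
    (hU0 : IsDom U0) (hI : Inv U0 col0 z c U col V) {F1 F2 : Set ℂ} (h1 : IsClosed F1)
    (h2 : IsClosed F2) (hc : closure (reg U0) ⊆ F1 ∪ F2) (hL : Loc U0 col0 c F1)
    (hz : ctr z ∈ F2) {Fr : Set Fc} (hN : NoP V col c (F1 ∩ F2) Fr)
    (hFr : ∀ f, ‖ctr f - ctr z‖ ≤ dst U0 z / 4 → f ∈ Fr)
    (hX : ∀ y ∈ F1 ∩ F2, dst U0 z / 4 < ‖y - ctr z‖) (hd : 100 ≤ dst U0 z) :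
    ¬ dst U z < dst U0 z / 8 := by
  intro hlt
  obtain ⟨f, hfV, hfc, hfn⟩ := hNF U0 col0 z c U col V hU0 hI hd hlt
  have hball : closedBall (ctr z) (dst U0 z / 4) ⊆ closure (reg U0) := by
    intro y hy
    apply subset_closure
    apply ball_dst
    rw [mem_closedBall] at hy
    rw [mem_ball]
    linarith
  have hfF2 : ctr f ∈ F2 := by
    by_contra hcon
    have hfb : ctr f ∈ closedBall (ctr z) (dst U0 z / 4) := by
      rw [mem_closedBall, dist_eq_norm]; exact hfn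
    have hf1 : ctr f ∈ F1 := by
      rcases hc (hball hfb) with h | h
      · exact h
      · exact absurd h hcon
    have hpre : IsPreconnected (closedBall (ctr z) (dst U0 z / 4)) :=
      (convex_closedBall _ _).isPreconnected
    obtain ⟨y, hy, hy2⟩ := isPreconnected_closed_iff.1 hpre F1 F2 h1 h2 (hball.trans hc)
      ⟨_, hfb, hf1⟩ ⟨ctr z, mem_closedBall_self (by linarith), hz⟩
    have h3 := hX y hy2
    rw [mem_closedBall, dist_eq_norm] at hy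
    linarith
  obtain ⟨g, hg, hgc, hgj, hgX⟩ := hCF U0 col0 z c U col V hU0 hI F1 F2 h1 h2 hc
    (fun v k hb hcol => hL v k hb hcol (mid_mem_segment v k)) f hfV hfc
    ⟨ctr f, ocell_subset f (ctr_mem f), hfF2⟩
  exact hN g f hg hgc hfV hfc hgj hgX (hFr f hfn)

/-- (b) the radii ending on the arc of colour `c` -/
theorem radius_hit (hCF : CF) {U : Finset Fc} {col : Fc → Bool} {V : Finset Fc}
    (hU0 : IsDom U0) (hI : Inv U0 col0 z c U col V) {F1 F2 : Set ℂ} (h1 : IsClosed F1)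
    (h2 : IsClosed F2) (hc : closure (reg U0) ⊆ F1 ∪ F2) (hL : Loc U0 col0 c F1)
    (hz : ctr z ∈ F2) {Fr : Set Fc} (hN : NoP V col c (F1 ∩ F2) Fr) (M : Marks U 2)
    (hM : ColP col M) {φ : ℂ → ℂ} (hφ : DiscChart (reg U) φ) (hφ0 : φ 0 = ctr z) {ξ : ℂ}
    (hξ : ‖ξ‖ = 1) (hE : φ ξ ∈ ES ↑(M.C (ix c))) :
    ∃ s : ℝ, 0 ≤ s ∧ s ≤ 1 ∧ (φ (s * ξ) ∈ F1 ∩ F2 ∨ ∃ g, g ∉ Fr ∧ φ (s * ξ) ∈ cell g) := by
  unfold ES at hE
  simp only [mem_iUnion] at hE
  obtain ⟨v, k, hC, hs⟩ := hE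
  have hB : isB U (ed v k) := (M.mem _).2 ⟨_, hC⟩
  have hcells : φ ξ ∈ cell (fc v (k + 1)) ∧ φ ξ ∈ cell (fc v (k + 2)) :=
    mem_cells_iff.2 (mem_segment_ept.1 hs)
  -- the two faces
  obtain ⟨f, g, hf, hg, hfg, hgv, hgE, hfe⟩ : ∃ f g, f ∈ U ∧ g ∉ U ∧ adjF g f ∧
      (g = fc v (k + 1) ∨ g = fc v (k + 2)) ∧ (g = lf (ed v k) ∨ g = rf (ed v k)) ∧
      (∀ h, (h = fc v (k + 1) ∨ h = fc v (k + 2)) → h = f ∨ h = g) := by
    have hne : ∀ k : Fin 3, k + 1 ≠ k + 2 := by decide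
    rcases isB_iff.1 hB with ⟨h3, h4⟩ | ⟨h3, h4⟩
    · refine ⟨_, _, h3, h4, adjF_fc v (hne k).symm, Or.inr rfl, ?_, fun h hh => hh⟩
      rcases faces_ed v k with ⟨-, h5, h6⟩ | ⟨-, h5, h6⟩
      · exact Or.inr h6.symm
      · exact Or.inl h5.symm
    · refine ⟨_, _, h4, h3, adjF_fc v (hne k), Or.inl rfl, ?_, fun h hh => hh.symm⟩
      rcases faces_ed v k with ⟨-, h5, h6⟩ | ⟨-, h5, h6⟩
      · exact Or.inl h5.symm
      · exact Or.inr h6.symm
  have hgcol : col g = c := (hM.ix c hB hgE hg).1 hC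
  have hyg : φ ξ ∈ cell g := by
    rcases hgv with h | h
    · rw [h]; exact hcells.1
    · rw [h]; exact hcells.2
  have hfU0 : f ∈ U0 := hI.sub hf
  -- either a near face or `φ ξ ∈ F1`
  have hor : (g ∉ Fr) ∨ φ ξ ∈ F1 := by
    by_cases hg0 : g ∈ U0
    · have hgV : g ∈ V := hI.near g hg0 hg f hf hfg
      by_cases hy2 : φ ξ ∈ F2
      · left
        obtain ⟨g', hg', hgc', hgj, hgX⟩ := hCF U0 col0 z c U col V hU0 hI F1 F2 h1 h2 hc
          (fun v k hb hcol => hL v k hb hcol (mid_mem_segment v k)) g hgV hgcol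
          ⟨φ ξ, hyg, hy2⟩
        exact hN g' g hg' hgc' hgV hgcol hgj hgX
      · right
        rcases hc (cell_sub_closure hg0 hyg) with h | h
        · exact h
        · exact absurd h hy2
    · right
      have hB0 : isB U0 (ed v k) := by
        rw [isB_iff]
        rcases isB_iff.1 hB with ⟨h3, h4⟩ | ⟨h3, h4⟩
        · refine Or.inl ⟨hI.sub h3, ?_⟩
          rcases hfe _ (Or.inr rfl) with h | h
          · rw [h] at h4; exact absurd hf h4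
          · rw [h]; exact hg0
        · refine Or.inr ⟨?_, hI.sub h4⟩
          rcases hfe _ (Or.inl rfl) with h | h
          · rw [h] at h3; exact absurd hf h3
          · rw [h]; exact hg0
      refine hL v k hB0 (fun h hh hh0 => ?_) hs
      rcases hfe h hh with h5 | h5
      · rw [h5] at hh0; exact absurd hfU0 hh0
      · rw [h5, ← hI.out g hg0]; exact hgcol
  rcases hor with hor | hor
  · refine ⟨1, by norm_num, le_rfl, Or.inr ⟨g, hor, ?_⟩⟩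
    rw [Complex.ofReal_one, one_mul]
    exact hyg
  · -- the radius is connected
    have hmaps : ∀ s ∈ Icc (0 : ℝ) 1, (s : ℂ) * ξ ∈ closedBall (0 : ℂ) 1 := by
      intro s hs
      rw [mem_closedBall_zero_iff, norm_mul, hξ, mul_one, Complex.norm_real, Real.norm_eq_abs,
        abs_of_nonneg hs.1]
      exact hs.2
    have hcont : ContinuousOn (fun s : ℝ => φ (s * ξ)) (Icc 0 1) :=
      hφ.cont.comp (by fun_prop) hmaps
    have hpre : IsPreconnected ((fun s : ℝ => φ (s * ξ)) '' Icc 0 1) :=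
      isPreconnected_Icc.image _ hcont
    have hsub : (fun s : ℝ => φ (s * ξ)) '' Icc 0 1 ⊆ F1 ∪ F2 := by
      rintro _ ⟨s, hs, rfl⟩
      apply hc
      apply closure_reg_mono hI.sub
      rw [← hφ.imgc]
      exact ⟨_, hmaps s hs, rfl⟩
    obtain ⟨_, ⟨s, hs, rfl⟩, hy⟩ := isPreconnected_closed_iff.1 hpre F1 F2 h1 h2 hsub
      ⟨φ ξ, ⟨1, by norm_num, by simp⟩, hor⟩ ⟨ctr z, ⟨0, by norm_num, by simp [hφ0]⟩, hz⟩
    exact ⟨s, hs.1, hs.2, Or.inl hy⟩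

end Pool.Agent.H15.SM
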