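import Pool.Agent.H15.SM.BDB

set_option autoImplicit false
open Pool.Agent.H75.Perc Metric Set Filter Topology Pool.Agent.H7.UC Pool.Agent.H74.Tri
open Pool.Agent.H93.SM Pool.Agent.H11.UC

/-! MP_2e6055, module SM/BD: the sine is small if all radii of one arc cross an annulus. -/

namespace Pool.Agent.H15.SM

lemma ES_frontier {U : Finset Fc} (M : Marks U 2) (j : Fin 2) : ES ↑(M.C j) ⊆ frontier (reg U) := by
  intro y hy
  unfold ES at hy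
  simp only [mem_iUnion] at hy
  obtain ⟨v, k, h1, h2⟩ := hy
  rw [frontier_reg]
  simp only [mem_iUnion]
  exact ⟨v, k, (M.mem _).2 ⟨j, h1⟩, h2⟩

theorem sn_le (hE : ECT) (hLM : LM) (hECo : ECo) {U : Finset Fc} {col : Fc → Bool} {z : Fc}
    {c : Bool} (hst : St U col) (hz : z ∈ U) {s0 : ℝ} (hs0 : 0 < s0) {x : ℂ} {r R : ℝ} (hr : 0 < r)
    (hrR : r < R)
    (H : ∀ (M : Marks U 2) (φ : ℂ → ℂ) (ξ : ℂ), ColP col M → DiscChart (reg U) φ → φ 0 = ctr z →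
      ‖ξ‖ = 1 → φ ξ ∈ ES ↑(M.C (ix c)) → ∃ s ∈ Icc s0 1,
        (‖φ (s * ξ) - x‖ ≤ r ∧ R ≤ ‖φ (s0 * ξ) - x‖) ∨
        (R ≤ ‖φ (s * ξ) - x‖ ∧ ‖φ (s0 * ξ) - x‖ ≤ r)) :
    sn U col z ≤ Real.sqrt 2 * Real.pi / s0 / Real.sqrt (Real.log (R / r)) / 2 := by
  by_cases h0 : sn U col z = 0
  · rw [h0]; positivity
  obtain ⟨M, φ, p, q, hcol, hφ, hφ0, hp, hq, hpu, hqu, hsn⟩ := sn_spec hE hst hz (tip_of_sn h0)
  obtain ⟨E, hE1, hE2, hE3, hE4, hE5⟩ := hECo U M hst.dom (ix c)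
  have hEs : E ⊆ φ '' sphere 0 1 := by
    intro y hy
    obtain ⟨w, hw, rfl⟩ := chart_sphere (isOpen_reg U) hφ (ES_frontier M _ (hE1 hy))
    exact ⟨w, mem_sphere_zero_iff_norm.2 hw, rfl⟩
  have h1 := hLM (reg U) φ E p q hφ hE2 hE3 hEs hp hq (by rw [hpu]; exact hE4)
    (by rw [hqu]; exact hE5)
  set J : Set ℝ := {t : ℝ | t ∈ Icc 0 (2 * Real.pi) ∧ φ (Complex.exp (t * Complex.I)) ∈ E} with hJ
  have hcont : Continuous (fun t : ℝ => φ (Complex.exp (t * Complex.I))) := by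
    apply hφ.cont.comp_continuous (by fun_prop)
    intro t
    rw [mem_closedBall_zero_iff, Complex.norm_exp_ofReal_mul_I]
  have hJm : MeasurableSet J := by
    have : J = Icc 0 (2 * Real.pi) ∩ (fun t : ℝ => φ (Complex.exp (t * Complex.I))) ⁻¹' E := rfl
    rw [this]
    exact measurableSet_Icc.inter (hE3.preimage hcont).measurableSet
  have h2 := hs2 hφ hs0 x hr hrR (J := J) (fun t ht => ht.1) hJm (fun t ht => by
    exact H M φ _ hcol hφ hφ0 (Complex.norm_exp_ofReal_mul_I t) (hE1 ht.2))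
  have h3 := h1.trans h2
  rw [ENNReal.ofReal_le_ofReal_iff (by positivity)] at h3
  rw [hsn]
  linarith

/-- growth in a state: points with parameter `≤ s0` stay in half of the inscribed disc -/
lemma growth_state {s0 : ℝ} (hG : ∀ (D : Set ℂ) (φ : ℂ → ℂ) (b : ℂ) (d : ℝ),
      DiscChart D φ → 0 < d → ball (φ 0) d ⊆ D → b ∉ D → ‖b - φ 0‖ ≤ d →
      ∀ w, ‖w‖ ≤ s0 → ‖φ w - φ 0‖ ≤ d / 2) {U : Finset Fc} {z : Fc} (hz : z ∈ U) {φ : ℂ → ℂ}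
    (hφ : DiscChart (reg U) φ) (hφ0 : φ 0 = ctr z) {w : ℂ} (hw : ‖w‖ ≤ s0) :
    ‖φ w - ctr z‖ ≤ dst U z / 2 := by
  obtain ⟨b, hb, hbd⟩ := exists_dst U z
  rw [← hφ0]
  exact hG (reg U) φ b (dst U z) hφ (dst_pos hz) (by rw [hφ0]; exact ball_dst U z) hb
    (by rw [hφ0]; exact hbd.le) w hw

section Cases

variable {U0 : Finset Fc} {col0 : Fc → Bool} {z : Fc} {c : Bool} {U : Finset Fc} {col : Fc → Bool}
  {V : Finset Fc} {F1 F2 : Set ℂ} {Fr : Set Fc} {s0 : ℝ}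

/-- case 1: the crosscut is in a small disc around a boundary point `x` -/
theorem sn_case1 (hE : ECT) (hLM : LM) (hECo : ECo) (hCF : CF)
    (hG : ∀ (D : Set ℂ) (φ : ℂ → ℂ) (b : ℂ) (d : ℝ),
      DiscChart D φ → 0 < d → ball (φ 0) d ⊆ D → b ∉ D → ‖b - φ 0‖ ≤ d →
      ∀ w, ‖w‖ ≤ s0 → ‖φ w - φ 0‖ ≤ d / 2) (hs0 : 0 < s0) (hs1 : s0 ≤ 1)
    (hU0 : IsDom U0) (hI : Inv U0 col0 z c U col V) (h1 : IsClosed F1)
    (h2 : IsClosed F2) (hc : closure (reg U0) ⊆ F1 ∪ F2) (hL : Loc U0 col0 c F1)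
    (hz : ctr z ∈ F2) {x : ℂ} {R1 : ℝ} (hR1 : 0 < R1)
    (hN : NoP V col c (F1 ∩ F2) {g | R1 ≤ ‖ctr g - x‖}) (hx : dst U0 z ≤ ‖x - ctr z‖)
    (hX : ∀ y ∈ F1 ∩ F2, ‖y - x‖ ≤ R1 + 2) (hR : R1 + 2 < dst U0 z / 2) :
    sn U col z ≤ Real.sqrt 2 * Real.pi / s0 /
      Real.sqrt (Real.log ((dst U0 z / 2) / (R1 + 2))) / 2 := by
  refine sn_le hE hLM hECo (c := c) (x := x) hI.st hI.mem hs0 (by linarith) hR ?_
  intro M φ ξ hM hφ hφ0 hξ hξE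
  have hd : dst U z ≤ dst U0 z := dst_mono hI.sub z
  have hnear : ∀ s : ℝ, 0 ≤ s → s ≤ s0 → dst U0 z / 2 ≤ ‖φ (s * ξ) - x‖ := by
    intro s hs hs'
    have h3 := growth_state hG hI.mem hφ hφ0 (w := s * ξ) (by
      rw [norm_mul, hξ, mul_one, Complex.norm_real, Real.norm_eq_abs, abs_of_nonneg hs]; exact hs')
    have h4 : ‖x - ctr z‖ ≤ ‖φ (s * ξ) - ctr z‖ + ‖φ (s * ξ) - x‖ := by
      have e : x - ctr z = (φ (s * ξ) - ctr z) - (φ (s * ξ) - x) := by ring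
      rw [e]; exact norm_sub_le _ _
    linarith
  obtain ⟨s, hs0', hs1', hs⟩ := radius_hit hCF hU0 hI h1 h2 hc hL hz hN M hM hφ hφ0 hξ hξE
  have hsx : ‖φ (s * ξ) - x‖ ≤ R1 + 2 := by
    rcases hs with hs | ⟨g, hg, hgc⟩
    · exact hX _ hs
    · rw [mem_ofPred_eq, not_le] at hg
      have h3 := norm_ctr_le hgc
      have e : φ (s * ξ) - x = (φ (s * ξ) - ctr g) + (ctr g - x) := by ring
      rw [e]
      exact (norm_add_le _ _).trans (by linarith)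
  refine ⟨s, ⟨?_, hs1'⟩, Or.inl ⟨hsx, hnear s0 hs0.le le_rfl⟩⟩
  by_contra h3
  have := hnear s hs0' (not_le.1 h3).le
  linarith

/-- case 2: the crosscut is far from `z` -/
theorem sn_case2 (hE : ECT) (hLM : LM) (hECo : ECo) (hCF : CF)
    (hG : ∀ (D : Set ℂ) (φ : ℂ → ℂ) (b : ℂ) (d : ℝ),
      DiscChart D φ → 0 < d → ball (φ 0) d ⊆ D → b ∉ D → ‖b - φ 0‖ ≤ d →
      ∀ w, ‖w‖ ≤ s0 → ‖φ w - φ 0‖ ≤ d / 2) (hs0 : 0 < s0) (hs1 : s0 ≤ 1)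
    (hU0 : IsDom U0) (hI : Inv U0 col0 z c U col V) (h1 : IsClosed F1)
    (h2 : IsClosed F2) (hc : closure (reg U0) ⊆ F1 ∪ F2) (hL : Loc U0 col0 c F1)
    (hz : ctr z ∈ F2) {R1 : ℝ}
    (hN : NoP V col c (F1 ∩ F2) {g | ‖ctr g - ctr z‖ ≤ R1})
    (hX : ∀ y ∈ F1 ∩ F2, R1 - 2 ≤ ‖y - ctr z‖) (hR : dst U0 z / 2 < R1 - 2) :
    sn U col z ≤ Real.sqrt 2 * Real.pi / s0 /
      Real.sqrt (Real.log ((R1 - 2) / (dst U0 z / 2))) / 2 := by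
  have hd0 : 0 < dst U z := dst_pos hI.mem
  have hd : dst U z ≤ dst U0 z := dst_mono hI.sub z
  refine sn_le hE hLM hECo (c := c) (x := ctr z) hI.st hI.mem hs0 (by linarith) hR ?_
  intro M φ ξ hM hφ hφ0 hξ hξE
  have hnear : ∀ s : ℝ, 0 ≤ s → s ≤ s0 → ‖φ (s * ξ) - ctr z‖ ≤ dst U0 z / 2 := by
    intro s hs hs'
    have h3 := growth_state hG hI.mem hφ hφ0 (w := s * ξ) (by
      rw [norm_mul, hξ, mul_one, Complex.norm_real, Real.norm_eq_abs, abs_of_nonneg hs]; exact hs')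
    linarith
  obtain ⟨s, hs0', hs1', hs⟩ := radius_hit hCF hU0 hI h1 h2 hc hL hz hN M hM hφ hφ0 hξ hξE
  have hsx : R1 - 2 ≤ ‖φ (s * ξ) - ctr z‖ := by
    rcases hs with hs | ⟨g, hg, hgc⟩
    · exact hX _ hs
    · rw [mem_ofPred_eq, not_le] at hg
      have h3 := norm_ctr_le hgc
      have e : ctr g - ctr z = (φ (s * ξ) - ctr z) - (φ (s * ξ) - ctr g) := by ring
      rw [e] at hg
      have := norm_sub_le (φ (s * ξ) - ctr z) (φ (s * ξ) - ctr g)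
      linarith
  refine ⟨s, ⟨?_, hs1'⟩, Or.inr ⟨hsx, hnear s0 hs0.le le_rfl⟩⟩
  by_contra h3
  have := hnear s hs0' (not_le.1 h3).le
  linarith

end Cases

end Pool.Agent.H15.SM
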