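import Pool.Agent.H15.SM.BDC

set_option autoImplicit false
open Pool.Agent.H75.Perc Metric Set Filter Topology Pool.Agent.H7.UC Pool.Agent.H74.Tri
open Pool.Agent.H93.SM Pool.Agent.H11.UC

/-! MP_2e6055, module SM/BD: assembly. -/

namespace Pool.Agent.H15.SM

lemma inc_arm (x : ℂ) (r R : ℝ) : Inc (Arm x r R) := by
  rintro ω ω' h ⟨f, g, h1, h2, h3, h4⟩
  exact ⟨f, g, h h1, h2, h3, Relation.ReflTransGen.mono (fun a b hab => ⟨h hab.1, hab.2⟩) _ _ h4⟩

/-- no arm in the revealed faces: no path from near `X` to far (case 1) -/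
lemma noP1 {V : Finset Fc} {col : Fc → Bool} {c : Bool} {X : Set ℂ} {x : ℂ} {r R : ℝ}
    (hX : ∀ y ∈ X, ‖y - x‖ ≤ r - 2) (h : ¬ Arm x r R (V.filter (fun f => col f = c))) :
    NoP V col c X {g | R ≤ ‖ctr g - x‖} := by
  intro f g hf hfc hg hgc hj hfX hgR
  apply h
  obtain ⟨y, hy1, hy2⟩ := hfX
  refine ⟨f, g, Finset.mem_filter.2 ⟨hf, hfc⟩, ?_, hgR, ?_⟩
  · have h1 := norm_ctr_le hy1
    have h2 := hX y hy2
    have e : ctr f - x = (y - x) - (y - ctr f) := by ring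
    rw [e]
    exact (norm_sub_le _ _).trans (by linarith)
  · exact Relation.ReflTransGen.mono (fun a b hab => ⟨Finset.mem_filter.2 hab.1, hab.2⟩) _ _ hj

/-- case 2 -/
lemma noP2 {V : Finset Fc} {col : Fc → Bool} {c : Bool} {X : Set ℂ} {x : ℂ} {r R : ℝ}
    (hX : ∀ y ∈ X, R + 2 ≤ ‖y - x‖) (h : ¬ Arm x r R (V.filter (fun f => col f = c))) :
    NoP V col c X {g | ‖ctr g - x‖ ≤ r} := by
  intro f g hf hfc hg hgc hj hfX hgR
  apply h
  obtain ⟨y, hy1, hy2⟩ := hfX
  have hj' : Jn {a | a ∈ V ∧ col a = c} g f := hj.symm ⟨hf, hfc⟩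
  refine ⟨g, f, Finset.mem_filter.2 ⟨hg, hgc⟩, hgR, ?_, ?_⟩
  · have h1 := norm_ctr_le hy1
    have h2 := hX y hy2
    have e : y - x = (y - ctr f) + (ctr f - x) := by ring
    rw [e] at h2
    have := norm_add_le (y - ctr f) (ctr f - x)
    linarith
  · exact Relation.ReflTransGen.mono (fun a b hab => ⟨Finset.mem_filter.2 hab.1, hab.2⟩) _ _ hj'

lemma exists_mu {C a e : ℝ} (hC : 1 ≤ C) (ha : 0 < a) (he : 0 < e) :
    ∃ m : ℝ, 0 < m ∧ m ≤ 1 ∧ C * m ^ a ≤ e := by
  have hC0 : 0 < C := by linarith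
  have h1 : 0 < (e / C) ^ (1 / a) := Real.rpow_pos_of_pos (by positivity) _
  refine ⟨min 1 ((e / C) ^ (1 / a)), lt_min one_pos h1, min_le_left _ _, ?_⟩
  have h2 : (min 1 ((e / C) ^ (1 / a))) ^ a ≤ ((e / C) ^ (1 / a)) ^ a :=
    Real.rpow_le_rpow (lt_min one_pos h1).le (min_le_right _ _) ha.le
  rw [← Real.rpow_mul (by positivity), one_div_mul_cancel ha.ne', Real.rpow_one] at h2
  calc C * (min 1 ((e / C) ^ (1 / a))) ^ a ≤ C * (e / C) := by gcongr
    _ = e := by field_simp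

lemma ev_zero (z : Fc) (B : Finset Fc → (Fc → Bool) → Prop) (U : Finset Fc) (col : Fc → Bool) (n : ℕ)
    (ht : tipF U col = none) (hB : ¬ B U col) :
    EV z (fun U' col' _ => B U' col') (fun U' col' _ => by
      classical exact if B U' col' then 1 else 0) n U col [] = 0 := by
  cases n with
  | zero => simp [EV, hB]
  | succ n => simp [EV, ht, hB]

/-- numerical facts -/
lemma num_T {Λ μ d : ℝ} (hΛ1 : 1 < Λ) (hμ0 : 0 < μ) (hμ1 : μ ≤ 1)
    (hd1 : 16 * (Λ / μ) + 100 ≤ d) : 100 ≤ d ∧ 4 * Λ * d / μ = 32 * Λ ^ 2 / μ ^ 2 * (μ * d / (8 * Λ)) ∧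
    μ * d / (8 * Λ) < 4 * Λ * d / μ / 2 := by
  have hΛ0 : 0 < Λ := by linarith
  have h0 : 0 < Λ / μ := by positivity
  have hd : 0 < d := by linarith
  have e1 : 4 * Λ * d / μ = 32 * Λ ^ 2 / μ ^ 2 * (μ * d / (8 * Λ)) := by field_simp; ring
  refine ⟨by linarith, e1, ?_⟩
  have h32 : 32 ≤ 32 * Λ ^ 2 / μ ^ 2 := by
    rw [le_div_iff₀ (by positivity)]
    have h1 : μ ^ 2 ≤ 1 := by nlinarith
    have h2 : 1 ≤ Λ ^ 2 := by nlinarith
    linarith
  have hl0 : 0 < μ * d / (8 * Λ) := by positivity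
  have : 32 * (μ * d / (8 * Λ)) ≤ 4 * Λ * d / μ := by
    rw [e1]; exact mul_le_mul_of_nonneg_right h32 hl0.le
  linarith

lemma num_2 {Λ μ d : ℝ} (hΛ1 : 1 < Λ) (hμ0 : 0 < μ) (hμ1 : μ ≤ 1)
    (hd1 : 16 * (Λ / μ) + 100 ≤ d) : Λ * d ≤ 4 * Λ * d / μ / 2 - 2 ∧ 100 ≤ Λ * d ∧ d ≤ Λ * d ∧
    Λ * d / (4 * Λ * d / μ / 2 - 2) ≤ μ ∧ Λ ≤ (Λ * d - 2) / (d / 2) ∧ d / 2 < Λ * d - 2 := by
  have hΛ0 : 0 < Λ := by linarith
  have h0 : 0 < Λ / μ := by positivity
  have hd : 100 ≤ d := by linarith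
  have hdΛ : d ≤ Λ * d := by nlinarith
  have e1 : 4 * Λ * d / μ / 2 = 2 * (Λ * d / μ) := by ring
  have h1 : Λ * d ≤ Λ * d / μ := by
    rw [le_div_iff₀ hμ0]; nlinarith
  have hT : 2 * (Λ * d) ≤ 4 * Λ * d / μ / 2 := by rw [e1]; linarith
  have hpos : 0 < 4 * Λ * d / μ / 2 - 2 := by linarith
  refine ⟨by linarith, by linarith, hdΛ, ?_, ?_, by linarith⟩
  · rw [div_le_iff₀ hpos]
    have : μ * (4 * Λ * d / μ / 2 - 2) = 2 * (Λ * d) - 2 * μ := by field_simp; ring
    rw [this]; linarith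
  · rw [le_div_iff₀ (by linarith)]
    have : Λ * (d / 2) = Λ * d / 2 := by ring
    rw [this]; linarith

lemma num_1 {Λ μ d : ℝ} (hΛ1 : 1 < Λ) (hμ0 : 0 < μ) (hμ1 : μ ≤ 1)
    (hd1 : 16 * (Λ / μ) + 100 ≤ d) : μ * d / (8 * Λ) + 2 ≤ μ * (d / (4 * Λ)) ∧
    μ * d / (8 * Λ) + 2 ≤ d / (4 * Λ) ∧ 2 ≤ d / (4 * Λ) ∧ d / (4 * Λ) ≤ d / 4 ∧
    Λ ≤ (d / 2) / (d / (4 * Λ) + 2) := by
  have hΛ0 : 0 < Λ := by linarith
  have h0 : 0 < Λ / μ := by positivity
  have hd : 100 ≤ d := by linarith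
  have e1 : μ * (d / (4 * Λ)) = μ * d / (8 * Λ) + μ * d / (8 * Λ) := by field_simp; ring
  have e2 : 2 ≤ μ * d / (8 * Λ) := by
    rw [le_div_iff₀ (by positivity)]
    have h2 : 16 * Λ ≤ μ * d := by
      have : 16 * Λ = μ * (16 * (Λ / μ)) := by field_simp
      rw [this]
      apply mul_le_mul_of_nonneg_left _ hμ0.le
      linarith
    linarith
  have hR0 : 0 < d / (4 * Λ) := by positivity
  have h1 : μ * (d / (4 * Λ)) ≤ d / (4 * Λ) := by nlinarith
  have h3 : d / (4 * Λ) ≤ d / 4 := by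
    apply div_le_div_of_nonneg_left (by linarith) (by norm_num) (by linarith)
  refine ⟨by linarith, by linarith, by linarith, h3, ?_⟩
  rw [le_div_iff₀ (by linarith)]
  have e3 : Λ * (d / (4 * Λ)) = d / 4 := by field_simp
  have h4 : 2 * Λ ≤ d / 4 := by
    have : 2 ≤ d / (4 * Λ) := by linarith
    rw [← e3]; nlinarith
  nlinarith

theorem bd_of (hGR : GR) (hXC : XC) (hEI : EI) (hECo : ECo) (hLM : LM) (hPB : PB) (hCF : CF)
    (hNF : NF) (hE : ECT) (hS : ECS) (hD5 : D5) : BD := by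
  intro κ1 hκ1 e he
  obtain ⟨s0, hs0, hs1, hG⟩ := hGR
  obtain ⟨C0, a, ha, hD⟩ := hD5
  set C := max C0 1 with hC
  have hC1 : 1 ≤ C := le_max_right _ _
  obtain ⟨μ, hμ0, hμ1, hμ⟩ := exists_mu hC1 ha he
  set L := Real.sqrt 2 * Real.pi / (s0 * κ1) with hL
  have hL0 : 0 < L := by positivity
  set Λ := Real.exp (L ^ 2) with hΛ
  have hΛ1 : 1 < Λ := by rw [hΛ]; exact Real.one_lt_exp_iff.2 (by positivity)
  -- the sine bound
  have hbound : ∀ t : ℝ, Λ ≤ t →
      Real.sqrt 2 * Real.pi / s0 / Real.sqrt (Real.log t) / 2 < κ1 := by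
    intro t ht
    have h1 : L ^ 2 ≤ Real.log t := by
      rw [← Real.log_exp (L ^ 2)]
      exact Real.log_le_log (Real.exp_pos _) ht
    have h2 : L ≤ Real.sqrt (Real.log t) := Real.le_sqrt_of_sq_le h1
    have h3 : Real.sqrt 2 * Real.pi / s0 / Real.sqrt (Real.log t) ≤
        Real.sqrt 2 * Real.pi / s0 / L := by gcongr
    have h4 : Real.sqrt 2 * Real.pi / s0 / L = κ1 := by
      rw [hL]; field_simp
    linarith
  set Qc := 4 * Real.pi ^ 2 * (32 * Λ ^ 2 / μ ^ 2) ^ 2 with hQc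
  have hQ0 : 0 < Qc := by positivity
  set r1 := 1 / 2 * Real.exp (-Qc) with hr1
  have hr10 : 0 < r1 := by positivity
  refine ⟨r1 / 4, by positivity, 16 * Λ / μ + 100, ?_⟩
  intro U0 col0 z hst hz hK hsn
  set d := dst U0 z with hd
  have hd1 : 16 * (Λ / μ) + 100 ≤ d := by
    have : 16 * (Λ / μ) = 16 * Λ / μ := by ring
    linarith
  obtain ⟨hd100, hTl, hlT⟩ := num_T hΛ1 hμ0 hμ1 hd1
  have hd0 : 0 < d := by linarith
  set B : Finset Fc → (Fc → Bool) → Prop := fun U' col' => dst U' z < d / 8 ∨ κ1 ≤ sn U' col' z with hB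
  suffices hgoal : EV z (fun U' col' _ => B U' col') (fun U' col' _ =>
      @ite ℝ (B U' col') (Classical.propDecidable _) 1 0) U0.card U0 col0 [] ≤ e by
    convert hgoal
  by_cases ht : ∃ t, TipE U0 col0 t
  swap
  · have h1 : tipF U0 col0 = none := by
      unfold tipF
      rw [dif_neg]
      rintro ⟨p, hp⟩
      rcases hE U0 col0 hst with ⟨M, p', q', hp', hq', -⟩ | ⟨hno, -⟩
      · have h2 : TipE U0 col0 (p'.1, nb q'.1 q'.2) := ⟨p', q', hp', rfl, hq', rfl⟩
        exact ht ⟨_, h2⟩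
      · exact hno p hp
    rw [ev_zero z B U0 col0 _ h1]
    · exact he.le
    · rintro (h2 | h2)
      · linarith
      · have : sn U0 col0 z = 0 := by unfold sn; rw [dif_neg ht]
        linarith
  obtain ⟨M, φ, p, q, hcol, hφ, hφ0, hp, hq, hpu, hqu, hsn'⟩ := sn_spec hE hst hz ht
  have hpq : ‖p - q‖ < r1 := by linarith
  set l := μ * d / (8 * Λ) with hl
  set T := 4 * Λ * d / μ with hT
  have hl0 : 0 < l := by positivity
  have hT0 : 0 < T := by positivity
  obtain ⟨r, hrr1, hrr2, hcase⟩ := hXC (reg U0) φ (ctr z) p T l r1 (1 / 2) hφ hp hr10 (by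
      have : Real.exp (-Qc) < 1 := by
        rw [← Real.exp_zero]; exact Real.exp_lt_exp.2 (by linarith)
      linarith) (by norm_num) hT0 hl0 hlT (by
      have e1 : (1 / 2 : ℝ) / r1 = Real.exp Qc := by
        rw [hr1, Real.exp_neg]; field_simp
      rw [e1, Real.log_exp, hTl, div_le_iff₀ hQ0]
      apply le_of_eq
      rw [hQc]; ring)
  have hr0 : 0 < r := hr10.trans hrr1
  obtain ⟨c, hc⟩ := short_arc hEI hst.dom M hφ hp hq hpu hqu (r := r) (by linarith)
  -- the two sides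
  have hF1 : IsClosed (S1 φ p r) := isClosed_S1 hφ p r
  have hF2 : IsClosed (S2 φ p r) := isClosed_S2 hφ p r
  have hcov : closure (reg U0) ⊆ S1 φ p r ∪ S2 φ p r := cover_S hφ p r
  have hzF : ctr z ∈ S2 φ p r := ⟨0, ⟨by simp, by rw [zero_sub, norm_neg, hp]; linarith⟩, hφ0⟩
  have hLoc : Loc U0 col0 c (S1 φ p r) := by
    intro v k hb hcl y hy
    have hyf : y ∈ frontier (reg U0) := by
      rw [frontier_reg]
      simp only [mem_iUnion]
      exact ⟨v, k, hb, hy⟩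
    obtain ⟨w, hw, rfl⟩ := chart_sphere (isOpen_reg U0) hφ hyf
    obtain ⟨f, hf1, hf2, hf3⟩ : ∃ f, (f = fc v (k + 1) ∨ f = fc v (k + 2)) ∧
        (f = lf (ed v k) ∨ f = rf (ed v k)) ∧ f ∉ U0 := by
      rcases isB_iff.1 hb with ⟨h3, h4⟩ | ⟨h3, h4⟩
      · refine ⟨_, Or.inr rfl, ?_, h4⟩
        rcases faces_ed v k with ⟨-, h5, h6⟩ | ⟨-, h5, h6⟩
        · exact Or.inr h6.symm
        · exact Or.inl h5.symm
      · refine ⟨_, Or.inl rfl, ?_, h3⟩
        rcases faces_ed v k with ⟨-, h5, h6⟩ | ⟨-, h5, h6⟩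
        · exact Or.inl h5.symm
        · exact Or.inr h6.symm
    have hC : ed v k ∈ M.C (ix c) := (hcol.ix c hb hf2 hf3).2 (hcl f hf1 hf3)
    have hES : φ w ∈ ES ↑(M.C (ix c)) := by
      unfold ES
      simp only [mem_iUnion]
      exact ⟨v, k, hC, hy⟩
    exact ⟨w, ⟨hw.le, (hc w hw hES).le⟩, rfl⟩
  rcases hcase with hcase | hcase
  · -- case 2: the crosscut is far from `z`
    have hXfar : ∀ y ∈ S1 φ p r ∩ S2 φ p r, T / 2 ≤ ‖y - ctr z‖ := by
      intro y hy
      obtain ⟨w, hw1, hw2, rfl⟩ := inter_S hφ hy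
      exact hcase w hw1 hw2
    obtain ⟨hR2, hΛd, hdΛ, hq, hb2, hRr⟩ := num_2 hΛ1 hμ0 hμ1 hd1
    rw [← hT] at hR2 hq
    have hkey : ∀ U col V, Inv U0 col0 z c U col V → B U col →
        Arm (ctr z) (Λ * d) (T / 2 - 2) (V.filter (fun f => col f = c)) := by
      intro U col V hI hBU
      by_contra hcon
      have hN := noP2 (X := S1 φ p r ∩ S2 φ p r) (fun y hy => by
        have := hXfar y hy; linarith) hcon
      rcases hBU with h1 | h1
      · exact no_drop hCF hNF hst.dom hI hF1 hF2 hcov hLoc hzF hN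
          (fun f hf => by
            show ‖ctr f - ctr z‖ ≤ Λ * d
            refine hf.trans ?_
            change d / 4 ≤ Λ * d
            linarith)
          (fun y hy => by
            have h2 := hXfar y hy
            change d / 4 < ‖y - ctr z‖
            linarith) hd100 h1
      · have h2 := sn_case2 hE hLM hECo hCF hG hs0 (by linarith) hst.dom hI hF1 hF2 hcov hLoc hzF
          hN (fun y hy => by have := hXfar y hy; linarith) hRr
        have h3 := hbound ((Λ * d - 2) / (dst U0 z / 2)) hb2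
        linarith
    refine (hPB hE hS U0 col0 z c hst hz _ (inc_arm (ctr z) (Λ * d) (T / 2 - 2)) B hkey).trans ?_
    refine (hD U0 (ctr z) (Λ * d) (T / 2 - 2) (by linarith) hR2).trans ?_
    have hpos : 0 < T / 2 - 2 := by linarith
    calc C0 * (Λ * d / (T / 2 - 2)) ^ a ≤ C * (Λ * d / (T / 2 - 2)) ^ a := by
          gcongr
          exact le_max_left _ _
      _ ≤ C * μ ^ a := by gcongr
      _ ≤ e := hμ
  · -- case 1: the crosscut is small
    obtain ⟨w1, hw1, hw1p⟩ := exists_sphere_pt hp hr0.le (by linarith : r ≤ 2)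
    set x := φ w1 with hx
    have hxz : d ≤ ‖x - ctr z‖ := by
      have h1 := sphere_frontier (isOpen_reg U0) hφ hw1
      rw [(isOpen_reg U0).frontier_eq] at h1
      have h2 : dst U0 z ≤ dist (ctr z) x := infDist_le_dist_of_mem h1.2
      rwa [dist_comm, dist_eq_norm] at h2
    have hXn : ∀ y ∈ S1 φ p r ∩ S2 φ p r, ‖y - x‖ ≤ l := by
      intro y hy
      obtain ⟨w, hw1', hw2, rfl⟩ := inter_S hφ hy
      exact hcase w w1 hw1' hw1.le hw2 hw1p
    set R1 := d / (4 * Λ) with hR1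
    have hR10 : 0 < R1 := by positivity
    obtain ⟨hlR, hR1l, h2R, hR1q, hb1⟩ := num_1 hΛ1 hμ0 hμ1 hd1
    rw [← hR1, ← hl] at hlR hR1l
    rw [← hR1] at h2R hR1q hb1
    have hkey : ∀ U col V, Inv U0 col0 z c U col V → B U col →
        Arm x (l + 2) R1 (V.filter (fun f => col f = c)) := by
      intro U col V hI hBU
      by_contra hcon
      have hN := noP1 (X := S1 φ p r ∩ S2 φ p r) (fun y hy => by
        have := hXn y hy; linarith) hcon
      rcases hBU with h1 | h1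
      · exact no_drop hCF hNF hst.dom hI hF1 hF2 hcov hLoc hzF hN
          (fun f hf => by
            show R1 ≤ ‖ctr f - x‖
            have e : x - ctr z = (ctr f - ctr z) - (ctr f - x) := by ring
            rw [e] at hxz
            have h2 := norm_sub_le (ctr f - ctr z) (ctr f - x)
            have h3 : ‖ctr f - ctr z‖ ≤ d / 4 := hf
            linarith)
          (fun y hy => by
            have h2 := hXn y hy
            have e : x - ctr z = (y - ctr z) - (y - x) := by ring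
            rw [e] at hxz
            have h3 := norm_sub_le (y - ctr z) (y - x)
            change d / 4 < ‖y - ctr z‖
            linarith) hd100 h1
      · have hRr : R1 + 2 < d / 2 := by linarith
        have h2 := sn_case1 hE hLM hECo hCF hG hs0 (by linarith) hst.dom hI hF1 hF2 hcov hLoc hzF
          hR10 hN hxz (fun y hy => by have := hXn y hy; linarith) hRr
        have h3 := hbound ((dst U0 z / 2) / (R1 + 2)) hb1
        linarith
    refine (hPB hE hS U0 col0 z c hst hz _ (inc_arm x (l + 2) R1) B hkey).trans ?_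
    refine (hD U0 x (l + 2) R1 (by linarith) hR1l).trans ?_
    have hq : (l + 2) / R1 ≤ μ := by
      rw [div_le_iff₀ hR10]; exact hlR
    calc C0 * ((l + 2) / R1) ^ a ≤ C * ((l + 2) / R1) ^ a := by
          gcongr
          exact le_max_left _ _
      _ ≤ C * μ ^ a := by gcongr
      _ ≤ e := hμ

end Pool.Agent.H15.SM
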