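import Pool.Agent.H15.SM.HS

set_option autoImplicit false
open Pool.Agent.H75.Perc Metric Set Filter Topology Pool.Agent.H7.UC Pool.Agent.H74.Tri
open Pool.Agent.H93.SM

/-! MP_2e6055, module BD (bad states): closed statements of the parts. -/

namespace Pool.Agent.H15.SM

/-- GR: growth of a univalent map (no Koebe constant needed). -/
def GR : Prop := ∃ s0 : ℝ, 0 < s0 ∧ s0 ≤ 1 / 2 ∧ ∀ (D : Set ℂ) (φ : ℂ → ℂ) (b : ℂ) (d : ℝ),
  DiscChart D φ → 0 < d → ball (φ 0) d ⊆ D → b ∉ D → ‖b - φ 0‖ ≤ d →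
  ∀ w, ‖w‖ ≤ s0 → ‖φ w - φ 0‖ ≤ d / 2

/-- XC: short crosscut (length-area in the disc `ball z T`). -/
def XC : Prop := ∀ (D : Set ℂ) (φ : ℂ → ℂ) (z p : ℂ) (T l r1 r2 : ℝ), DiscChart D φ → ‖p‖ = 1 →
  0 < r1 → r1 < r2 → r2 ≤ 1 → 0 < T → 0 < l → l < T / 2 →
  4 * Real.pi ^ 2 * T ^ 2 / Real.log (r2 / r1) ≤ l ^ 2 →
  ∃ r, r1 < r ∧ r < r2 ∧
    ((∀ w, ‖w‖ ≤ 1 → ‖w - p‖ = r → T / 2 ≤ ‖φ w - z‖) ∨
     (∀ w w', ‖w‖ ≤ 1 → ‖w'‖ ≤ 1 → ‖w - p‖ = r → ‖w' - p‖ = r → ‖φ w - φ w'‖ ≤ l))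

/-- union of the edges of `A` -/
def ES (A : Set Ed) : Set ℂ := ⋃ v : Vx, ⋃ k : Fin 3, ⋃ _ : ed v k ∈ A, segment ℝ (pv v) (pv (nb v k))

/-- EI: the two boundary arcs meet only at the marks. -/
def EI : Prop := ∀ (U : Finset Fc) (M : Marks U 2), IsDom U →
  ES ↑(M.C 0) ∩ ES ↑(M.C 1) ⊆ {pv (M.u 0), pv (M.u 1)}

/-- ECo: each boundary arc contains a connected set with both marks. -/
def ECo : Prop := ∀ (U : Finset Fc) (M : Marks U 2), IsDom U → ∀ j, ∃ E : Set ℂ, E ⊆ ES ↑(M.C j) ∧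
  IsPreconnected E ∧ IsClosed E ∧ pv (M.u 0) ∈ E ∧ pv (M.u 1) ∈ E

/-- LM: measure of the angles of a boundary set which contains a connected set with both points. -/
def LM : Prop := ∀ (D : Set ℂ) (φ : ℂ → ℂ) (E : Set ℂ) (p q : ℂ), DiscChart D φ → IsPreconnected E →
  IsClosed E → E ⊆ φ '' sphere 0 1 → ‖p‖ = 1 → ‖q‖ = 1 → φ p ∈ E → φ q ∈ E →
  ENNReal.ofReal ‖p - q‖ ≤
    MeasureTheory.volume {t : ℝ | t ∈ Icc 0 (2 * Real.pi) ∧ φ (Complex.exp (t * Complex.I)) ∈ E}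

/-- invariants of the chain started in `(U0, col0)`: `V` = revealed faces -/
structure Inv (U0 : Finset Fc) (col0 : Fc → Bool) (z : Fc) (c : Bool) (U : Finset Fc)
    (col : Fc → Bool) (V : Finset Fc) : Prop where
  st : St U col
  sub : U ⊆ U0
  mem : z ∈ U
  disj : ∀ f ∈ V, f ∈ U0 ∧ f ∉ U
  out : ∀ f, f ∉ U0 → col f = col0 f
  /-- removed faces touching `U` are revealed -/
  near : ∀ f ∈ U0, f ∉ U → ∀ g ∈ U, adjF f g → f ∈ V
  /-- a revealed face has a neighbour of colour `c` which is revealed or not in `U0` -/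
  nbr : ∀ f ∈ V, ∃ g, adjF f g ∧ col g = c ∧ (g ∈ V ∨ g ∉ U0)
  /-- the revealed faces of colour `c` are joined to the outer faces of colour `c` -/
  join : ∀ f ∈ V, col f = c → ∃ g, Jn {a | a ∈ V ∧ col a = c} f g ∧ ∃ x, x ∉ U0 ∧ adjF g x ∧ col0 x = c

/-- PB: the probability that the chain stops in a state with property `B` is at most the probability
of the increasing event `A`, if `B` implies `A` for the revealed faces of colour `c`. -/
def PB : Prop := ECT → ECS → ∀ (U0 : Finset Fc) (col0 : Fc → Bool) (z : Fc) (c : Bool),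
  St U0 col0 → z ∈ U0 → ∀ (A : Finset Fc → Prop), Inc A →
  ∀ B : Finset Fc → (Fc → Bool) → Prop,
  (∀ U col V, Inv U0 col0 z c U col V → B U col → A (V.filter (fun f => col f = c))) →
  EV z (fun U' col' _ => B U' col') (fun U' col' _ => by
    classical exact if B U' col' then 1 else 0) U0.card U0 col0 [] ≤ Pr U0 A

/-- CF (chain crossing): a revealed face of colour `c` whose cell meets `F2` is joined by revealed
faces of colour `c` to a face whose cell meets `F1 ∩ F2`; `F1`, `F2` closed, cover the cells. -/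
def CF : Prop := ∀ (U0 : Finset Fc) (col0 : Fc → Bool) (z : Fc) (c : Bool) (U : Finset Fc)
  (col : Fc → Bool) (V : Finset Fc), IsDom U0 → Inv U0 col0 z c U col V → ∀ F1 F2 : Set ℂ,
  IsClosed F1 → IsClosed F2 → closure (reg U0) ⊆ F1 ∪ F2 →
  (∀ v k, isB U0 (ed v k) → (∀ f, (f = fc v (k + 1) ∨ f = fc v (k + 2)) → f ∉ U0 → col0 f = c) →
    mid v k ∈ F1) →
  ∀ f ∈ V, col f = c → (cell f ∩ F2).Nonempty →
  ∃ g ∈ V, col g = c ∧ Jn {a | a ∈ V ∧ col a = c} g f ∧ (cell g ∩ (F1 ∩ F2)).Nonempty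

/-- NF: if the distance of `z` drops there is a revealed face of colour `c` near `z`. -/
def NF : Prop := ∀ (U0 : Finset Fc) (col0 : Fc → Bool) (z : Fc) (c : Bool) (U : Finset Fc)
  (col : Fc → Bool) (V : Finset Fc), IsDom U0 → Inv U0 col0 z c U col V → 100 ≤ dst U0 z →
  dst U z < dst U0 z / 8 → ∃ f ∈ V, col f = c ∧ ‖ctr f - ctr z‖ ≤ dst U0 z / 4

end Pool.Agent.H15.SM
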