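import Pool.Agent.H93.SM.Iface
import Pool.Agent.H96.M7.LengthArea

set_option autoImplicit false
open Set Filter Topology MeasureTheory
open scoped Real ENNReal

/-! MP_2e6055, module SM: HS (length-area for the radii of a chart). -/

namespace Pool.Agent.H15.SM

open Pool.Agent.H96.M7

/-- crossing of a band by a continuous function -/
lemma cross1 {g : ℝ → ℝ} {a b : ℝ} (hab : a ≤ b) (hg : ContinuousOn g (Icc a b)) {r R r' R' : ℝ}
    (h1 : r < r') (h2 : r' < R') (h3 : R' < R) (ha : R ≤ g a) (hb : g b ≤ r) :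
    ∃ c d, a < c ∧ c < d ∧ d < b ∧ g c = R' ∧ g d = r' ∧ ∀ s ∈ Icc c d, r' ≤ g s ∧ g s ≤ R' := by
  -- last time at level `R'` before ... use `IsCompact` sets
  have hc1 : IsCompact {s | s ∈ Icc a b ∧ g s ≤ r'} := by
    have : {s | s ∈ Icc a b ∧ g s ≤ r'} = Icc a b ∩ g ⁻¹' (Iic r') := rfl
    rw [this]
    exact isCompact_Icc.of_isClosed_subset (hg.preimage_isClosed_of_isClosed isClosed_Icc
      isClosed_Iic) inter_subset_left
  obtain ⟨d, ⟨hd1, hd2⟩, hd3⟩ := hc1.exists_isLeast ⟨b, right_mem_Icc.2 hab, by linarith⟩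
  have hdlow : ∀ s ∈ Icc a b, s < d → r' < g s := by
    intro s hs hsd
    by_contra h
    have := hd3 ⟨hs, not_lt.1 h⟩
    linarith
  have hc2 : IsCompact {s | s ∈ Icc a d ∧ R' ≤ g s} := by
    have : {s | s ∈ Icc a d ∧ R' ≤ g s} = Icc a d ∩ g ⁻¹' (Ici R') := rfl
    rw [this]
    exact isCompact_Icc.of_isClosed_subset ((hg.mono (Icc_subset_Icc_right hd1.2)).preimage_isClosed_of_isClosed
      isClosed_Icc isClosed_Ici) inter_subset_left
  obtain ⟨c, ⟨hc3, hc4⟩, hc5⟩ := hc2.exists_isGreatest ⟨a, left_mem_Icc.2 hd1.1, by linarith⟩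
  have hchigh : ∀ s ∈ Icc a d, c < s → g s < R' := by
    intro s hs hsd
    by_contra h
    have := hc5 ⟨hs, not_lt.1 h⟩
    linarith
  have hcd : c < d := by
    rcases lt_or_eq_of_le hc3.2 with h | h
    · exact h
    · rw [h] at hc4; linarith
  have hgd : g d = r' := by
    apply le_antisymm hd2
    -- limit from the left
    have h4 : Tendsto g (𝓝[Ico c d] d) (𝓝 (g d)) :=
      (hg d hd1).mono_left (nhdsWithin_mono _ (fun s hs => ⟨hc3.1.trans hs.1, hs.2.le.trans hd1.2⟩))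
    haveI : NeBot (𝓝[Ico c d] d) := by
      rw [nhdsWithin_Ico_eq_nhdsLT hcd]; infer_instance
    refine ge_of_tendsto h4 ?_
    filter_upwards [self_mem_nhdsWithin] with s hs
    exact (hdlow s ⟨hc3.1.trans hs.1, hs.2.le.trans hd1.2⟩ hs.2).le
  have hgc : g c = R' := by
    apply le_antisymm _ hc4
    have h4 : Tendsto g (𝓝[Ioc c d] c) (𝓝 (g c)) :=
      (hg c ⟨hc3.1, hc3.2.trans hd1.2⟩).mono_left (nhdsWithin_mono _
        (fun s hs => ⟨hc3.1.trans hs.1.le, hs.2.trans hd1.2⟩))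
    haveI : NeBot (𝓝[Ioc c d] c) := by
      rw [nhdsWithin_Ioc_eq_nhdsGT hcd]; infer_instance
    refine le_of_tendsto h4 ?_
    filter_upwards [self_mem_nhdsWithin] with s hs
    exact (hchigh s ⟨hc3.1.trans hs.1.le, hs.2⟩ hs.1).le
  refine ⟨c, d, ?_, hcd, ?_, hgc, hgd, ?_⟩
  · rcases lt_or_eq_of_le hc3.1 with h | h
    · exact h
    · rw [← h] at hgc; linarith
  · rcases lt_or_eq_of_le hd1.2 with h | h
    · exact h
    · rw [h] at hgd; linarith
  · intro s hs
    constructor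
    · rcases lt_or_eq_of_le hs.2 with h | h
      · exact (hdlow s ⟨hc3.1.trans hs.1, hs.2.trans hd1.2⟩ h).le
      · rw [h, hgd]
    · rcases lt_or_eq_of_le hs.1 with h | h
      · exact (hchigh s ⟨hc3.1.trans hs.1, hs.2⟩ h).le
      · rw [← h, hgc]

/-- both directions -/
lemma cross2 {g : ℝ → ℝ} {a b : ℝ} (hab : a ≤ b) (hg : ContinuousOn g (Icc a b)) {r R r' R' : ℝ}
    (h1 : r < r') (h2 : r' < R') (h3 : R' < R)
    (h : (R ≤ g a ∧ g b ≤ r) ∨ (g a ≤ r ∧ R ≤ g b)) :
    ∃ c d, a < c ∧ c < d ∧ d < b ∧ ((g c = R' ∧ g d = r') ∨ (g c = r' ∧ g d = R')) ∧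
      ∀ s ∈ Icc c d, r' ≤ g s ∧ g s ≤ R' := by
  rcases h with ⟨h4, h5⟩ | ⟨h4, h5⟩
  · obtain ⟨c, d, e1, e2, e3, e4, e5, e6⟩ := cross1 hab hg h1 h2 h3 h4 h5
    exact ⟨c, d, e1, e2, e3, Or.inl ⟨e4, e5⟩, e6⟩
  · have hg' : ContinuousOn (fun s => g (a + b - s)) (Icc a b) := by
      apply hg.comp (by fun_prop)
      intro s hs
      constructor <;> linarith [hs.1, hs.2]
    obtain ⟨c, d, e1, e2, e3, e4, e5, e6⟩ := cross1 hab hg' h1 h2 h3
      (show R ≤ g (a + b - a) by rw [add_sub_cancel_left]; exact h5)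
      (show g (a + b - b) ≤ r by rw [add_sub_cancel_right]; exact h4)
    refine ⟨a + b - d, a + b - c, by linarith, by linarith, by linarith, Or.inr ⟨e5, e4⟩, ?_⟩
    intro s hs
    have := e6 (a + b - s) ⟨by linarith [hs.2], by linarith [hs.1]⟩
    simpa using this

/-- weight of the annulus -/
noncomputable def wt (x : ℂ) (r R : ℝ) : ℂ → ℝ≥0∞ :=
  {w | r < ‖w - x‖ ∧ ‖w - x‖ < R}.indicator (fun w => ENNReal.ofReal (1 / ‖w - x‖))

lemma wt_set_meas (x : ℂ) (r R : ℝ) : MeasurableSet {w : ℂ | r < ‖w - x‖ ∧ ‖w - x‖ < R} := by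
  have hc : Continuous (fun w : ℂ => ‖w - x‖) := by fun_prop
  exact ((isOpen_lt continuous_const hc).inter (isOpen_lt hc continuous_const)).measurableSet

lemma measurable_wt (x : ℂ) (r R : ℝ) : Measurable (wt x r R) := by
  apply Measurable.indicator _ (wt_set_meas x r R)
  fun_prop

/-- the density along the disc -/
noncomputable def FF (φ : ℂ → ℂ) (x : ℂ) (r R : ℝ) (z : ℂ) : ℝ≥0∞ := ‖deriv φ z‖ₑ * wt x r R (φ z)

/-- derivative of the logarithm of the distance -/
lemma hasDerivAt_logn {u : ℝ → ℂ} {u' : ℂ} {s : ℝ} (hu : HasDerivAt u u' s) (h0 : u s ≠ 0) :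
    ∃ d : ℝ, HasDerivAt (fun s => Real.log ‖u s‖) d s ∧ |d| ≤ ‖u'‖ / ‖u s‖ := by
  have hre : HasDerivAt (fun s => (u s).re) u'.re s := by
    exact (Complex.reCLM.hasFDerivAt (x := u s)).comp_hasDerivAt s hu
  have him : HasDerivAt (fun s => (u s).im) u'.im s := by
    exact (Complex.imCLM.hasFDerivAt (x := u s)).comp_hasDerivAt s hu
  have hn : HasDerivAt (fun s => (u s).re ^ 2 + (u s).im ^ 2)
      (2 * (u s).re * u'.re + 2 * (u s).im * u'.im) s := by
    have h := (hre.pow 2).add (him.pow 2)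
    have e : 2 * (u s).re * u'.re + 2 * (u s).im * u'.im =
      ((2 : ℕ) : ℝ) * (u s).re ^ (2 - 1) * u'.re + ((2 : ℕ) : ℝ) * (u s).im ^ (2 - 1) * u'.im := by
      norm_num
    rw [e]
    exact h
  have hpos : 0 < (u s).re ^ 2 + (u s).im ^ 2 := by
    have := Complex.normSq_pos.2 h0
    rw [Complex.normSq_apply] at this
    nlinarith
  have hl := (hn.log hpos.ne').const_mul (1 / 2 : ℝ)
  have e1 : (fun s => Real.log ‖u s‖) = fun s => (1 / 2 : ℝ) * Real.log ((u s).re ^ 2 + (u s).im ^ 2) := by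
    funext s
    have : (u s).re ^ 2 + (u s).im ^ 2 = ‖u s‖ ^ 2 := by
      rw [Complex.sq_norm, Complex.normSq_apply]; ring
    rw [this, Real.log_pow]
    push_cast
    ring
  refine ⟨_, by rw [e1]; exact hl, ?_⟩
  have e2 : (u s).re ^ 2 + (u s).im ^ 2 = ‖u s‖ ^ 2 := by
    rw [Complex.sq_norm, Complex.normSq_apply]; ring
  have e3 : u'.re ^ 2 + u'.im ^ 2 = ‖u'‖ ^ 2 := by
    rw [Complex.sq_norm, Complex.normSq_apply]; ring
  have hup : 0 < ‖u s‖ := norm_pos_iff.2 h0
  rw [e2]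
  have e4 : (1 / 2 : ℝ) * ((2 * (u s).re * u'.re + 2 * (u s).im * u'.im) / ‖u s‖ ^ 2) =
      ((u s).re * u'.re + (u s).im * u'.im) / ‖u s‖ ^ 2 := by ring
  rw [e4, abs_div, abs_of_pos (by positivity : 0 < ‖u s‖ ^ 2), div_le_div_iff₀ (by positivity) hup]
  have e5 : |(u s).re * u'.re + (u s).im * u'.im| ≤ ‖u s‖ * ‖u'‖ := by
    apply abs_le_of_sq_le_sq _ (by positivity)
    rw [mul_pow, ← e2, ← e3]
    nlinarith [sq_nonneg ((u s).re * u'.im - (u s).im * u'.re)]
  calc |(u s).re * u'.re + (u s).im * u'.im| * ‖u s‖ ≤ (‖u s‖ * ‖u'‖) * ‖u s‖ := by gcongr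
    _ = ‖u'‖ * ‖u s‖ ^ 2 := by ring

/-- **Crossing estimate** for one radius. -/
lemma radius_le {φ : ℂ → ℂ} (hc : ContinuousOn φ (Metric.closedBall 0 1))
    (hd : DifferentiableOn ℂ φ (Metric.ball 0 1)) {x : ℂ} {r R : ℝ} (hr : 0 < r) (hrR : r < R) (θ : ℝ)
    (h : (R ≤ ‖φ (circleMap 0 (1/2) θ) - x‖ ∧ ‖φ (circleMap 0 1 θ) - x‖ ≤ r) ∨
      (‖φ (circleMap 0 (1/2) θ) - x‖ ≤ r ∧ R ≤ ‖φ (circleMap 0 1 θ) - x‖)) :
    ENNReal.ofReal (Real.log (R / r)) ≤
      ∫⁻ s in Ioo (1/2 : ℝ) 1, FF φ x r R (circleMap 0 s θ) := by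
  have hR : 0 < R := hr.trans hrR
  set g : ℝ → ℝ := fun s => ‖φ (circleMap 0 s θ) - x‖ with hgdef
  have hcm : Continuous (fun s : ℝ => circleMap 0 s θ) := by
    unfold circleMap; fun_prop
  have hmem : ∀ s ∈ Icc (1/2 : ℝ) 1, circleMap 0 s θ ∈ Metric.closedBall (0 : ℂ) 1 := by
    intro s hs
    rw [mem_closedBall_zero_iff, norm_circleMap_zero, abs_of_nonneg (by linarith [hs.1])]
    exact hs.2
  have hmem' : ∀ s ∈ Ioo (1/2 : ℝ) 1, circleMap 0 s θ ∈ Metric.ball (0 : ℂ) 1 := by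
    intro s hs
    rw [mem_ball_zero_iff, norm_circleMap_zero, abs_of_nonneg (by linarith [hs.1])]
    exact hs.2
  have hg : ContinuousOn g (Icc (1/2) 1) :=
    ((hc.comp hcm.continuousOn hmem).sub continuousOn_const).norm
  -- the estimate with smaller levels
  have key : ∀ ε : ℝ, 0 < ε → ε < Real.log (R / r) / 2 →
      ENNReal.ofReal (Real.log (R / r) - 2 * ε) ≤
        ∫⁻ s in Ioo (1/2 : ℝ) 1, FF φ x r R (circleMap 0 s θ) := by
    intro ε hε hε2
    have e1 : r < r * Real.exp ε := by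
      have := Real.add_one_le_exp ε
      nlinarith
    have e3 : R * Real.exp (-ε) < R := by
      have : Real.exp (-ε) < 1 := by
        rw [← Real.exp_zero]; exact Real.exp_lt_exp.2 (by linarith)
      nlinarith
    have e2 : r * Real.exp ε < R * Real.exp (-ε) := by
      have h1 : Real.exp (2 * ε) < R / r := by
        rw [← Real.lt_log_iff_exp_lt (by positivity)]; linarith
      rw [lt_div_iff₀ hr] at h1
      have h2 : Real.exp (2 * ε) * Real.exp (-ε) = Real.exp ε := by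
        rw [← Real.exp_add]; congr 1; ring
      have h3 : 0 < Real.exp (-ε) := Real.exp_pos _
      nlinarith
    obtain ⟨c, d, hc1, hcd, hd1, hgcd, hin⟩ := cross2 (by norm_num : (1/2 : ℝ) ≤ 1) hg e1 e2 e3 (by
      rcases h with h | h
      · exact Or.inl h
      · exact Or.inr h)
    have hcdI : ∀ s ∈ Icc c d, s ∈ Ioo (1/2 : ℝ) 1 := fun s hs =>
      ⟨lt_of_lt_of_le hc1 hs.1, lt_of_le_of_lt hs.2 hd1⟩
    have hpos : ∀ s ∈ Icc c d, φ (circleMap 0 s θ) - x ≠ 0 := by
      intro s hs h0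
      have := (hin s hs).1
      simp only [hgdef, h0, norm_zero] at this
      have h1 : 0 < r * Real.exp ε := by positivity
      linarith
    have hcmd : ContDiff ℝ 1 (fun s : ℝ => circleMap 0 s θ) := by
      unfold circleMap
      exact contDiff_const.add ((Complex.ofRealCLM.contDiff).mul contDiff_const)
    have hC : ContDiffOn ℝ 1 (fun s => φ (circleMap 0 s θ) - x) (Icc c d) := by
      have h1 : ContDiffOn ℂ 1 φ (Metric.ball 0 1) := hd.contDiffOn Metric.isOpen_ball
      have h2 : ContDiffOn ℝ 1 φ (Metric.ball 0 1) := h1.restrict_scalars ℝ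
      exact (h2.comp hcmd.contDiffOn (fun s hs => hmem' s (hcdI s hs))).sub contDiffOn_const
    have hL : ContDiffOn ℝ 1 (fun s => Real.log ‖φ (circleMap 0 s θ) - x‖) (Icc c d) := by
      apply (hC.norm ℝ hpos).log
      intro s hs
      exact norm_ne_zero_iff.2 (hpos s hs)
    have hI := enorm_sub_le_lintegral_deriv_of_contDiffOn_Icc hL hcd.le
    have hval : ENNReal.ofReal (Real.log (R / r) - 2 * ε) ≤
        ‖Real.log ‖φ (circleMap 0 d θ) - x‖ - Real.log ‖φ (circleMap 0 c θ) - x‖‖ₑ := by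
      rw [← ofReal_norm, Real.norm_eq_abs]
      apply ENNReal.ofReal_le_ofReal
      have l1 : Real.log (R * Real.exp (-ε)) = Real.log R - ε := by
        rw [Real.log_mul hR.ne' (Real.exp_pos _).ne', Real.log_exp]; ring
      have l2 : Real.log (r * Real.exp ε) = Real.log r + ε := by
        rw [Real.log_mul hr.ne' (Real.exp_pos _).ne', Real.log_exp]
      have l3 : Real.log (R / r) = Real.log R - Real.log r := Real.log_div hR.ne' hr.ne'
      rcases hgcd with ⟨g1, g2⟩ | ⟨g1, g2⟩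
      · simp only [hgdef] at g1 g2
        rw [g1, g2, l1, l2, l3]
        rw [abs_sub_comm]
        refine le_trans (le_of_eq ?_) (le_abs_self _)
        ring
      · simp only [hgdef] at g1 g2
        rw [g1, g2, l1, l2, l3]
        refine le_trans (le_of_eq ?_) (le_abs_self _)
        ring
    refine (hval.trans hI).trans ?_
    refine le_trans ?_ (lintegral_mono_set (s := Icc c d) (fun s hs => hcdI s hs))
    apply setLIntegral_mono' measurableSet_Icc
    intro s hs
    have hsb := hmem' s (hcdI s hs)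
    have h1 : HasDerivAt φ (deriv φ (circleMap 0 s θ)) (circleMap 0 s θ) :=
      (hd.differentiableAt (Metric.isOpen_ball.mem_nhds hsb)).hasDerivAt
    have h2 : HasDerivAt (fun s : ℝ => circleMap 0 s θ) (Complex.exp (θ * Complex.I)) s := by
      unfold circleMap
      have := ((hasDerivAt_id s).ofReal_comp.mul_const (Complex.exp (θ * Complex.I))).const_add (0 : ℂ)
      simpa using this
    have h3 : HasDerivAt (fun s : ℝ => φ (circleMap 0 s θ) - x)
        (deriv φ (circleMap 0 s θ) * Complex.exp (θ * Complex.I)) s :=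
      (h1.comp_of_eq s h2 rfl).sub_const x
    obtain ⟨D, h4, h5⟩ := hasDerivAt_logn h3 (hpos s hs)
    rw [h4.deriv]
    have hw : wt x r R (φ (circleMap 0 s θ)) =
        ENNReal.ofReal (1 / ‖φ (circleMap 0 s θ) - x‖) := by
      unfold wt
      rw [indicator_of_mem]
      have := hin s hs
      exact ⟨lt_of_lt_of_le e1 this.1, lt_of_le_of_lt this.2 e3⟩
    unfold FF
    rw [hw, ← ofReal_norm, ← ofReal_norm, ← ENNReal.ofReal_mul (norm_nonneg _), Real.norm_eq_abs]
    apply ENNReal.ofReal_le_ofReal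
    rw [norm_mul, Complex.norm_exp_ofReal_mul_I, mul_one] at h5
    rw [mul_one_div]
    exact h5
  -- limit
  have hlog : 0 < Real.log (R / r) := Real.log_pos ((one_lt_div hr).2 hrR)
  have ht : Tendsto (fun ε : ℝ => ENNReal.ofReal (Real.log (R / r) - 2 * ε)) (𝓝[>] 0)
      (𝓝 (ENNReal.ofReal (Real.log (R / r)))) := by
    apply (ENNReal.continuous_ofReal.tendsto _).comp
    have : Tendsto (fun ε : ℝ => Real.log (R / r) - 2 * ε) (𝓝 0) (𝓝 (Real.log (R / r) - 2 * 0)) := by
      apply Continuous.tendsto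
      fun_prop
    rw [mul_zero, sub_zero] at this
    exact this.mono_left nhdsWithin_le_nhds
  refine le_of_tendsto ht ?_
  filter_upwards [Ioo_mem_nhdsGT (show (0 : ℝ) < Real.log (R / r) / 2 by positivity)] with ε hε
  exact key ε hε.1 hε.2

/-- change of variables with a weight -/
lemma area_wt {f : ℂ → ℂ} {Om : Set ℂ} (ho : IsOpen Om) (hf : DifferentiableOn ℂ f Om)
    (hi : InjOn f Om) (g : ℂ → ℝ≥0∞) :
    ∫⁻ w in f '' Om, g w = ∫⁻ z in Om, ‖deriv f z‖ₑ ^ 2 * g (f z) := by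
  have h := lintegral_image_eq_lintegral_abs_det_fderiv_mul (volume : Measure ℂ) ho.measurableSet
    (f := f) (f' := fun z => (ContinuousLinearMap.toSpanSingleton ℂ (deriv f z)).restrictScalars ℝ)
    (fun z hz => by
      have h1 : HasDerivAt f (deriv f z) z := (hf.differentiableAt (ho.mem_nhds hz)).hasDerivAt
      exact (h1.hasFDerivAt.restrictScalars ℝ).hasFDerivWithinAt) hi g
  rw [h]
  apply lintegral_congr
  intro z
  rw [det_smulRight, abs_of_nonneg (by positivity), ENNReal.ofReal_pow (norm_nonneg _),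
    ofReal_norm]

/-- area of the annulus in the logarithmic metric -/
lemma ann_area (x : ℂ) {r R : ℝ} (hr : 0 < r) (hrR : r < R) :
    ∫⁻ w, wt x r R w ^ 2 = ENNReal.ofReal (2 * π * Real.log (R / r)) := by
  rw [polar _ ((measurable_wt x r R).pow_const 2) x]
  have h1 : ∀ ρ ∈ Ioi (0 : ℝ), ∫⁻ θ in Ioo (-π) π,
      ENNReal.ofReal ρ * wt x r R (circleMap x ρ θ) ^ 2 =
      (Ioo r R).indicator (fun ρ => ENNReal.ofReal (2 * π) * ENNReal.ofReal (1 / ρ)) ρ := by
    intro ρ hρ
    have hρ0 : (0 : ℝ) < ρ := hρ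
    have h2 : ∀ θ : ℝ, ‖circleMap x ρ θ - x‖ = ρ := by
      intro θ
      rw [norm_sub_rev, ← dist_eq_norm, dist_comm, dist_eq_norm]
      simp [circleMap, abs_of_pos hρ0]
    by_cases hm : ρ ∈ Ioo r R
    · rw [indicator_of_mem hm]
      have h3 : ∀ θ : ℝ, ENNReal.ofReal ρ * wt x r R (circleMap x ρ θ) ^ 2 =
          ENNReal.ofReal (1 / ρ) := by
        intro θ
        unfold wt
        rw [indicator_of_mem (show circleMap x ρ θ ∈ {w | r < ‖w - x‖ ∧ ‖w - x‖ < R} by
          simp only [mem_setOf_eq, h2]; exact hm), h2, ← ENNReal.ofReal_pow (by positivity),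
          ← ENNReal.ofReal_mul hρ0.le]
        congr 1
        field_simp
      simp only [h3]
      rw [lintegral_const, Measure.restrict_apply MeasurableSet.univ, univ_inter, Real.volume_Ioo,
        mul_comm]
      congr 2
      ring
    · rw [indicator_of_notMem hm]
      have h3 : ∀ θ : ℝ, ENNReal.ofReal ρ * wt x r R (circleMap x ρ θ) ^ 2 = 0 := by
        intro θ
        unfold wt
        rw [indicator_of_notMem (show circleMap x ρ θ ∉ {w | r < ‖w - x‖ ∧ ‖w - x‖ < R} by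
          simp only [mem_setOf_eq, h2]; exact hm)]
        simp
      simp only [h3]
      simp
  rw [setLIntegral_congr_fun measurableSet_Ioi h1, lintegral_indicator measurableSet_Ioo,
    Measure.restrict_restrict measurableSet_Ioo]
  have h4 : Ioo r R ∩ Ioi 0 = Ioo r R := by
    apply inter_eq_left.2
    intro ρ h
    exact hr.trans h.1
  rw [h4, lintegral_const_mul _ (by fun_prop), lintegral_inv_Ioo hr hrR,
    ← ENNReal.ofReal_mul (by positivity)]

lemma measurable_FF {φ : ℂ → ℂ} (hc : ContinuousOn φ (Metric.closedBall 0 1)) (x : ℂ) (r R : ℝ) :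
    Measurable ((Metric.ball (0 : ℂ) 1).indicator (FF φ x r R)) := by
  classical
  have h1 : Measurable ((Metric.ball (0 : ℂ) 1).piecewise φ (fun _ => 0)) :=
    ContinuousOn.measurable_piecewise (hc.mono Metric.ball_subset_closedBall) continuousOn_const
      Metric.isOpen_ball.measurableSet
  have h2 : (Metric.ball (0 : ℂ) 1).indicator (FF φ x r R) = (Metric.ball (0 : ℂ) 1).indicator
      (fun z => ‖deriv φ z‖ₑ * wt x r R ((Metric.ball (0 : ℂ) 1).piecewise φ (fun _ => 0) z)) := by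
    funext z
    by_cases hz : z ∈ Metric.ball (0 : ℂ) 1
    · rw [indicator_of_mem hz, indicator_of_mem hz, piecewise_eq_of_mem _ _ _ hz]
      rfl
    · rw [indicator_of_notMem hz, indicator_of_notMem hz]
  rw [h2]
  exact ((measurable_deriv φ).enorm.mul ((measurable_wt x r R).comp h1)).indicator
    Metric.isOpen_ball.measurableSet

/-- Cauchy-Schwarz on the disc -/
lemma disc_le {φ : ℂ → ℂ} (hc : ContinuousOn φ (Metric.closedBall 0 1))
    (hi : InjOn φ (Metric.closedBall 0 1))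
    (hd : DifferentiableOn ℂ φ (Metric.ball 0 1)) (x : ℂ) {r R : ℝ} (hr : 0 < r) (hrR : r < R) :
    ∫⁻ z, (Metric.ball (0 : ℂ) 1).indicator (FF φ x r R) z ≤
      ENNReal.ofReal (Real.sqrt 2 * π * Real.sqrt (Real.log (R / r))) := by
  have hlog : 0 < Real.log (R / r) := Real.log_pos ((one_lt_div hr).2 hrR)
  have h1 := ENNReal.lintegral_mul_le_Lp_mul_Lq (volume : Measure ℂ)
    (Real.HolderConjugate.two_two) (f := (Metric.ball (0 : ℂ) 1).indicator (FF φ x r R))
    (g := (Metric.ball (0 : ℂ) 1).indicator (fun _ => (1 : ℝ≥0∞)))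
    (measurable_FF hc x r R).aemeasurable
    (measurable_const.indicator Metric.isOpen_ball.measurableSet).aemeasurable
  have h2 : ∫⁻ z, ((Metric.ball (0 : ℂ) 1).indicator (FF φ x r R) *
      (Metric.ball (0 : ℂ) 1).indicator (fun _ => (1 : ℝ≥0∞))) z =
      ∫⁻ z, (Metric.ball (0 : ℂ) 1).indicator (FF φ x r R) z := by
    apply lintegral_congr
    intro z
    by_cases hz : z ∈ Metric.ball (0 : ℂ) 1
    · simp [indicator_of_mem hz]
    · simp [indicator_of_notMem hz]
  rw [h2] at h1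
  refine h1.trans ?_
  have h3 : ∫⁻ z, (Metric.ball (0 : ℂ) 1).indicator (FF φ x r R) z ^ (2 : ℝ) ≤
      ENNReal.ofReal (2 * π * Real.log (R / r)) := by
    have h4 : ∫⁻ z, (Metric.ball (0 : ℂ) 1).indicator (FF φ x r R) z ^ (2 : ℝ) =
        ∫⁻ z in Metric.ball (0 : ℂ) 1, ‖deriv φ z‖ₑ ^ 2 * (wt x r R (φ z)) ^ 2 := by
      rw [← lintegral_indicator Metric.isOpen_ball.measurableSet]
      apply lintegral_congr
      intro z
      by_cases hz : z ∈ Metric.ball (0 : ℂ) 1
      · rw [indicator_of_mem hz, indicator_of_mem hz]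
        unfold FF
        rw [← mul_pow, ENNReal.rpow_ofNat]
      · rw [indicator_of_notMem hz, indicator_of_notMem hz]
        simp
    rw [h4, ← area_wt Metric.isOpen_ball hd (hi.mono Metric.ball_subset_closedBall)
      (fun w => wt x r R w ^ 2), ← ann_area x hr hrR]
    exact setLIntegral_le_lintegral _ _
  have h5 : ∫⁻ z, (Metric.ball (0 : ℂ) 1).indicator (fun _ => (1 : ℝ≥0∞)) z ^ (2 : ℝ) =
      ENNReal.ofReal π := by
    have h6 : ∀ z : ℂ, (Metric.ball (0 : ℂ) 1).indicator (fun _ => (1 : ℝ≥0∞)) z ^ (2 : ℝ) =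
        (Metric.ball (0 : ℂ) 1).indicator (fun _ => (1 : ℝ≥0∞)) z := by
      intro z
      by_cases hz : z ∈ Metric.ball (0 : ℂ) 1
      · simp [indicator_of_mem hz]
      · simp [indicator_of_notMem hz]
    simp only [h6]
    rw [lintegral_indicator Metric.isOpen_ball.measurableSet, lintegral_const, one_mul,
      Measure.restrict_apply MeasurableSet.univ, univ_inter, Complex.volume_ball]
    simp
    rw [← ENNReal.ofReal_coe_nnreal]
    rfl
  rw [h5]
  calc (∫⁻ z, (Metric.ball (0 : ℂ) 1).indicator (FF φ x r R) z ^ (2 : ℝ)) ^ (1 / 2 : ℝ) *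
        ENNReal.ofReal π ^ (1 / 2 : ℝ)
      ≤ (ENNReal.ofReal (2 * π * Real.log (R / r))) ^ (1 / 2 : ℝ) *
        ENNReal.ofReal π ^ (1 / 2 : ℝ) := by gcongr
    _ = ENNReal.ofReal (Real.sqrt 2 * π * Real.sqrt (Real.log (R / r))) := by
      rw [ENNReal.ofReal_rpow_of_nonneg (by positivity) (by norm_num),
        ENNReal.ofReal_rpow_of_nonneg (by positivity) (by norm_num),
        ← ENNReal.ofReal_mul (by positivity), ← Real.sqrt_eq_rpow, ← Real.sqrt_eq_rpow,
        ← Real.sqrt_mul (by positivity)]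
      congr 1
      have e : 2 * π * Real.log (R / r) * π = (2 * π ^ 2) * Real.log (R / r) := by ring
      rw [e, Real.sqrt_mul (by positivity), Real.sqrt_mul (by norm_num),
        Real.sqrt_sq Real.pi_pos.le]

/-- periodicity in the angle -/
lemma angle_shift (G : ℂ → ℝ≥0∞) (s : ℝ) :
    ∫⁻ θ in Icc 0 (2 * π), G (circleMap 0 s θ) = ∫⁻ θ in Ioo (-π) π, G (circleMap 0 s θ) := by
  have h2 := (isAddFundamentalDomain_Ioc Real.two_pi_pos 0).setLIntegral_eq
    (isAddFundamentalDomain_Ioc Real.two_pi_pos (-π))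
    (fun θ => G (circleMap 0 s θ)) (by
      rintro ⟨g, hg⟩ x
      obtain ⟨n, rfl⟩ := AddSubgroup.mem_zmultiples_iff.1 hg
      have : circleMap 0 s ((⟨n • (2 * π), hg⟩ : AddSubgroup.zmultiples (2 * π)) +ᵥ x) =
          circleMap 0 s x := by
        change circleMap 0 s (n • (2 * π) + x) = circleMap 0 s x
        rw [add_comm]
        exact (periodic_circleMap 0 s).zsmul n x
      rw [this])
  have e : -π + 2 * π = π := by ring
  rw [e, zero_add] at h2
  rw [setLIntegral_congr Ioo_ae_eq_Ioc, ← h2]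
  exact setLIntegral_congr Ioc_ae_eq_Icc.symm

lemma half_le {G : ℂ → ℝ≥0∞} (hGm : Measurable G) :
    ∫⁻ s in Ioo (1/2 : ℝ) 1, ∫⁻ θ in Ioo (-π) π, G (circleMap 0 s θ) ≤ 2 * ∫⁻ z, G z := by
  have hGJ : Measurable (fun p : ℝ × ℝ => G (circleMap 0 p.1 p.2)) :=
    hGm.comp (measurable_circleMap2 0)
  have hm1 : ∀ s : ℝ, Measurable (fun θ : ℝ => G (circleMap 0 s θ)) := fun s =>
    hGJ.comp (measurable_const.prodMk measurable_id)
  have hm3 : Measurable (fun p : ℝ × ℝ => ENNReal.ofReal p.1 * G (circleMap 0 p.1 p.2)) :=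
    (ENNReal.measurable_ofReal.comp measurable_fst).mul hGJ
  have hm2 : Measurable (fun s : ℝ => ∫⁻ θ in Ioo (-π) π, ENNReal.ofReal s * G (circleMap 0 s θ)) :=
    hm3.lintegral_prod_right'
  have h1 : 2 * ∫⁻ z, G z = ∫⁻ s in Ioi (0 : ℝ),
      2 * ∫⁻ θ in Ioo (-π) π, ENNReal.ofReal s * G (circleMap 0 s θ) := by
    rw [polar G hGm 0, lintegral_const_mul 2 hm2]
  rw [h1]
  have hsub : Ioo (1/2 : ℝ) 1 ⊆ Ioi 0 := by
    intro s hs
    have : (0:ℝ) < 1/2 := by norm_num
    exact this.trans hs.1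
  refine le_trans ?_ (lintegral_mono_set hsub)
  apply setLIntegral_mono' measurableSet_Ioo
  intro s hs
  have h2 : 2 * ∫⁻ θ in Ioo (-π) π, ENNReal.ofReal s * G (circleMap 0 s θ) =
      ∫⁻ θ in Ioo (-π) π, 2 * (ENNReal.ofReal s * G (circleMap 0 s θ)) := by
    rw [lintegral_const_mul 2 ((hm1 s).const_mul (ENNReal.ofReal s))]
  rw [h2]
  apply lintegral_mono
  intro θ
  simp only
  rw [← mul_assoc]
  have h3 : (1 : ℝ≥0∞) ≤ 2 * ENNReal.ofReal s := by
    have e : (2 : ℝ≥0∞) = ENNReal.ofReal 2 := by norm_num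
    rw [e, ← ENNReal.ofReal_mul (by norm_num), ENNReal.one_le_ofReal]
    linarith [hs.1]
  calc G (circleMap 0 s θ) = 1 * G (circleMap 0 s θ) := (one_mul _).symm
    _ ≤ _ := by gcongr

/-- **HS.** -/
theorem hs : Pool.Agent.H93.SM.HS := by
  refine ⟨2 * (Real.sqrt 2 * π), ?_⟩
  intro U φ _ hφ x r R hr hrR J hJ hJm h
  have hlog : 0 < Real.log (R / r) := Real.log_pos ((one_lt_div hr).2 hrR)
  set G : ℂ → ℝ≥0∞ := (Metric.ball (0 : ℂ) 1).indicator (FF φ x r R) with hG
  have hGm : Measurable G := measurable_FF hφ.cont x r R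
  have hGJ : Measurable (fun p : ℝ × ℝ => G (circleMap 0 p.1 p.2)) :=
    hGm.comp (measurable_circleMap2 0)
  have h1 : ∀ θ ∈ J, ENNReal.ofReal (Real.log (R / r)) ≤
      ∫⁻ s in Ioo (1/2 : ℝ) 1, G (circleMap 0 s θ) := by
    intro θ hθ
    have e1 : Complex.exp (θ * Complex.I) = circleMap 0 1 θ := by simp [circleMap]
    have e2 : Complex.exp (θ * Complex.I) / 2 = circleMap 0 (1/2) θ := by
      simp [circleMap]; ring
    have h2 := radius_le hφ.cont hφ.diff (x := x) hr hrR θ (by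
      rcases h with h | h
      · have := h θ hθ
        rw [e2, e1] at this
        exact Or.inl ⟨this.2, this.1⟩
      · have := h θ hθ
        rw [e2, e1] at this
        exact Or.inr ⟨this.2, this.1⟩)
    refine h2.trans (le_of_eq ?_)
    apply setLIntegral_congr_fun measurableSet_Ioo
    intro s hs
    simp only [hG]
    rw [indicator_of_mem]
    rw [mem_ball_zero_iff, norm_circleMap_zero, abs_of_nonneg (by linarith [hs.1])]
    exact hs.2
  have h2 : ENNReal.ofReal (Real.log (R / r)) * volume J ≤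
      ∫⁻ θ in J, ∫⁻ s in Ioo (1/2 : ℝ) 1, G (circleMap 0 s θ) := by
    rw [← setLIntegral_const]
    exact setLIntegral_mono' hJm h1
  have h3 : ∫⁻ θ in J, ∫⁻ s in Ioo (1/2 : ℝ) 1, G (circleMap 0 s θ) ≤
      ∫⁻ s in Ioo (1/2 : ℝ) 1, ∫⁻ θ in Ioo (-π) π, G (circleMap 0 s θ) := by
    rw [lintegral_lintegral_swap]
    · apply lintegral_mono
      intro s
      simp only
      rw [← angle_shift G s]
      exact lintegral_mono_set hJ
    · exact (hGJ.comp measurable_swap).aemeasurable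
  have h4 : ∫⁻ s in Ioo (1/2 : ℝ) 1, ∫⁻ θ in Ioo (-π) π, G (circleMap 0 s θ) ≤
      2 * ∫⁻ z, G z := half_le hGm
  have h5 := disc_le hφ.cont hφ.inj hφ.diff x hr hrR
  have h6 : ENNReal.ofReal (Real.log (R / r)) * volume J ≤
      ENNReal.ofReal (2 * (Real.sqrt 2 * π * Real.sqrt (Real.log (R / r)))) := by
    refine (h2.trans (h3.trans h4)).trans ?_
    rw [ENNReal.ofReal_mul (by norm_num : (0:ℝ) ≤ 2)]
    have e : (2 : ℝ≥0∞) = ENNReal.ofReal 2 := by norm_num
    rw [← e]
    gcongr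
  have hfin : volume J ≠ ⊤ := by
    have : volume J ≤ volume (Icc (0:ℝ) (2 * π)) := measure_mono hJ
    rw [Real.volume_Icc] at this
    exact ne_top_of_le_ne_top ENNReal.ofReal_ne_top this
  rw [← ENNReal.ofReal_toReal hfin, ← ENNReal.ofReal_mul hlog.le,
    ENNReal.ofReal_le_ofReal_iff (by positivity)] at h6
  rw [le_div_iff₀ (by positivity)]
  have hs : Real.sqrt (Real.log (R / r)) * Real.sqrt (Real.log (R / r)) = Real.log (R / r) :=
    Real.mul_self_sqrt hlog.le
  have hsp : 0 < Real.sqrt (Real.log (R / r)) := Real.sqrt_pos.2 hlog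
  have h7 : Real.sqrt (Real.log (R / r)) * ((volume J).toReal * Real.sqrt (Real.log (R / r))) ≤
      Real.sqrt (Real.log (R / r)) * (2 * (Real.sqrt 2 * π)) := by
    calc Real.sqrt (Real.log (R / r)) * ((volume J).toReal * Real.sqrt (Real.log (R / r))) =
          (Real.sqrt (Real.log (R / r)) * Real.sqrt (Real.log (R / r))) * (volume J).toReal := by ring
      _ = Real.log (R / r) * (volume J).toReal := by rw [hs]
      _ ≤ 2 * (Real.sqrt 2 * π * Real.sqrt (Real.log (R / r))) := h6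
      _ = _ := by ring
  exact le_of_mul_le_mul_left h7 hsp

end Pool.Agent.H15.SM
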